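import Mathlib

/-!
# Grammars, interpretations, grammatical families, descriptions of grammars

Letters are natural numbers; a language is a set of words over the natural numbers.
-/

namespace Pool.Agent.H639R2.FE

/-- A context-free grammar `(N, T, P, S)` with disjoint finite sets `N` (nonterminals) and `T`
(terminals) of letters, start letter `S` in `N` and finite production set `P` (a pair `(A, β)` is
the production `A → β`), without productions `A → λ`. -/
structure Grammar where
  N : Finset ℕ
  T : Finset ℕ
  P : Finset (ℕ × List ℕ)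
  S : ℕ
  disj : Disjoint N T
  start_mem : S ∈ N
  wf : ∀ p ∈ P, p.1 ∈ N ∧ p.2 ≠ [] ∧ ∀ x ∈ p.2, x ∈ N ∨ x ∈ T

/-- One derivation step. -/
def Grammar.Step (G : Grammar) (u v : List ℕ) : Prop :=
  ∃ (l r : List ℕ) (A : ℕ) (β : List ℕ), (A, β) ∈ G.P ∧ u = l ++ A :: r ∧ v = l ++ β ++ r

/-- The language `L(G)`. -/
def Grammar.language (G : Grammar) : Set (List ℕ) :=
  {w | (∀ x ∈ w, x ∈ G.T) ∧ Relation.ReflTransGen G.Step [G.S] w}

/-- `G'` is an interpretation of `G` by means of the letter assignment `σ`: distinct letters of
`G` are assigned disjoint finite sets of letters, `N'` and `T'` are the unions of the sets assigned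
to the letters of `N` and `T`, `S'` belongs to `σ(S)`, and every production of `G'` is obtained from
a production of `G` by replacing each letter occurrence `x` by some letter of `σ(x)`. -/
structure IsInterpretation (G G' : Grammar) (σ : ℕ → Finset ℕ) : Prop where
  disjoint : ∀ x ∈ G.N ∪ G.T, ∀ y ∈ G.N ∪ G.T, x ≠ y → Disjoint (σ x) (σ y)
  nonterminals : G'.N = G.N.biUnion σ
  terminals : G'.T = G.T.biUnion σ
  start : G'.S ∈ σ G.S
  productions : ∀ p ∈ G'.P, ∃ q ∈ G.P,
    p.1 ∈ σ q.1 ∧ List.Forall₂ (fun x' x => x' ∈ σ x) p.2 q.2

/-- The grammatical family of `G`: the languages of all interpretations of `G`. -/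
def family (G : Grammar) : Set (Set (List ℕ)) :=
  {L | ∃ (G' : Grammar) (σ : ℕ → Finset ℕ), IsInterpretation G G' σ ∧ L = G'.language}

/-- A finite description: the list of nonterminals, the list of terminals, the list of
productions and the start letter. -/
abbrev Desc : Type := List ℕ × List ℕ × List (ℕ × List ℕ) × ℕ

/-- The description `d` describes the grammar `G`. -/
def Describes (d : Desc) (G : Grammar) : Prop :=
  d.1.toFinset = G.N ∧ d.2.1.toFinset = G.T ∧ d.2.2.1.toFinset = G.P ∧ d.2.2.2 = G.S

end Pool.Agent.H639R2.FE
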