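import Pool.Agent.H639R2.FE.Lang

/-! The two forms are family equivalent iff the system of word equations has no solution. -/

set_option autoImplicit false

namespace Pool.Agent.H639R2.FE

open Pool.Agent.Helper230

section gen

variable {Q : Type}

theorem DerN_typed {R : Set (Q × List (Q ⊕ ℕ))} {R' : Set (NT × List (NT ⊕ ℕ))} {μ : Q → NT}
    {τ : ℕ → ℕ} (h : ∀ r ∈ R, (μ r.1, r.2.map (Sum.map μ τ)) ∈ R') {n : ℕ} {u : List (Q ⊕ ℕ)}
    {w : List ℕ} (hd : DerN (ExR R) n u w) :
    DerN (ExR R') n (u.map (Sum.map μ τ)) (w.map τ) := by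
  induction hd with
  | nil n => exact DerN.nil n
  | ter a _ ih => exact DerN.ter _ ih
  | nt hx _ _ ih1 ih2 =>
    rw [List.map_append]
    exact DerN.nt (h _ hx) ih1 ih2

theorem DerN_mono {R R' : Set (Q × List (Q ⊕ ℕ))} (h : R ⊆ R') {n : ℕ} {u : List (Q ⊕ ℕ)}
    {w : List ℕ} (hd : DerN (ExR R) n u w) : DerN (ExR R') n u w := by
  induction hd with
  | nil n => exact DerN.nil n
  | ter a _ ih => exact DerN.ter _ ih
  | nt hx _ _ ih1 ih2 => exact DerN.nt (h hx) ih1 ih2

end gen

section

variable {S : Type} [Finite S] {P : S → S → List S} {z : S}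
variable {c : LL S → ℕ} {all : List (LL S)} {M : ℕ} {hc : ∀ x, 6 ≤ c x}

theorem typed_of_gen {R' : Set (NT × List (NT ⊕ ℕ))} {hR : R'.Finite}
    {hR1 : ∀ r ∈ R', r.2 ≠ [] ∧ ∀ x, Sum.inr x ∈ r.2 → x ∈ TT c} {τ : ℕ → ℕ}
    {L : Set (List ℕ)} (hL : Gen (mkG c hc R' hR hR1).dat τ L) :
    ∃ (Q : Type) (_ : Finite Q) (μ : Q → NT) (s : Q) (R : Set (Q × List (Q ⊕ ℕ))) (D : Finset ℕ),
      μ s = .s ∧ (∀ x ∈ D, τ x ∈ TT c) ∧ (∀ r ∈ R, (μ r.1, r.2.map (Sum.map μ τ)) ∈ R') ∧
      (∀ r ∈ R, ∀ x, Sum.inr x ∈ r.2 → x ∈ D) ∧ L = {w | Der (ExR R) [Sum.inl s] w} := by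
  obtain ⟨Q, hQ, ν, s, R, D, hs, hN, hD, hR2, hRD, rfl⟩ := hL
  have hμ : ∀ q, ∃ t, e t = ν q := by
    intro q
    have h := hN q
    change ν q ∈ Finset.range 5 at h
    rw [Finset.mem_range] at h
    have h5 : ν q = 0 ∨ ν q = 1 ∨ ν q = 2 ∨ ν q = 3 ∨ ν q = 4 := by omega
    rcases h5 with h | h | h | h | h <;> rw [h]
    · exact ⟨.s, rfl⟩
    · exact ⟨.c1, rfl⟩
    · exact ⟨.c2, rfl⟩
    · exact ⟨.u, rfl⟩
    · exact ⟨.r, rfl⟩
  choose μ hμ using hμ
  refine ⟨Q, hQ, μ, s, R, D, ?_, hD, ?_, hRD, rfl⟩
  · apply e_inj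
    rw [hμ, hs]; rfl
  · intro r hr
    have h1 := hR2 r hr
    change _ ∈ hR.toFinset.image er at h1
    simp only [Finset.mem_image, Set.Finite.mem_toFinset, er, Prod.mk.injEq, Prod.exists] at h1
    obtain ⟨q', β', h2, h3, h4⟩ := h1
    have h5 : q' = μ r.1 := by apply e_inj; rw [h3, hμ]
    have h6 : β' = r.2.map (Sum.map μ τ) := by
      have hβ : ∀ x, Sum.inr x ∈ β' → x ∈ TT c := (hR1 _ h2).2
      have hr2 : ∀ x, Sum.inr x ∈ r.2 → x ∈ D := hRD r hr
      clear h2 h3 hr
      generalize r.2 = γ at *
      induction β' generalizing γ with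
      | nil =>
        cases γ with
        | nil => rfl
        | cons y γ => simp at h4
      | cons x β' ih =>
        cases γ with
        | nil => simp at h4
        | cons y γ =>
          simp only [List.map_cons, List.cons.injEq] at h4 ⊢
          refine ⟨?_, ih (fun a ha => hβ a (List.mem_cons_of_mem _ ha)) γ h4.2
            (fun a ha => hr2 a (List.mem_cons_of_mem _ ha))⟩
          have hT5 : ∀ a ∈ TT c, 5 ≤ a := by
            intro a ha
            rw [mem_TT] at ha
            rcases ha with ⟨b, rfl⟩ | rfl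
            · have := hc b; omega
            · omega
          cases x with
          | inl q =>
            cases y with
            | inl q'' =>
              simp only [Sum.elim_inl] at h4
              simp only [Sum.map_inl, Sum.inl.injEq]
              apply e_inj
              rw [hμ]; exact h4.1
            | inr y =>
              simp only [Sum.elim_inl, Sum.elim_inr] at h4
              have h7 := hT5 _ (hD y (hr2 y List.mem_cons_self))
              have h8 := e_lt q
              omega
          | inr x =>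
            cases y with
            | inl q'' =>
              simp only [Sum.elim_inl, Sum.elim_inr, id_eq] at h4
              have h7 := hT5 _ (hβ x List.mem_cons_self)
              have h8 := e_lt (μ q'')
              rw [hμ] at h8
              omega
            | inr y =>
              simp only [Sum.elim_inr, id_eq] at h4
              simp only [Sum.map_inr, Sum.inr.injEq]
              exact h4.1
    rw [← h5, ← h6]
    exact h2

theorem gen_of_typed {R' : Set (NT × List (NT ⊕ ℕ))} {hR : R'.Finite}
    {hR1 : ∀ r ∈ R', r.2 ≠ [] ∧ ∀ x, Sum.inr x ∈ r.2 → x ∈ TT c} {τ : ℕ → ℕ}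
    {Q : Type} [Finite Q] {μ : Q → NT} {s : Q} {R : Set (Q × List (Q ⊕ ℕ))} {D : Finset ℕ}
    (hs : μ s = .s) (hD : ∀ x ∈ D, τ x ∈ TT c) (hR2 : ∀ r ∈ R, (μ r.1, r.2.map (Sum.map μ τ)) ∈ R')
    (hRD : ∀ r ∈ R, ∀ x, Sum.inr x ∈ r.2 → x ∈ D) :
    Gen (mkG c hc R' hR hR1).dat τ {w | Der (ExR R) [Sum.inl s] w} := by
  refine ⟨Q, inferInstance, fun q => e (μ q), s, R, D, ?_, ?_, hD, ?_, hRD, rfl⟩
  · change e (μ s) = 0
    rw [hs]; rfl
  · intro q
    change e (μ q) ∈ Finset.range 5
    simp [e_lt]
  · intro r hr
    change _ ∈ hR.toFinset.image er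
    simp only [Finset.mem_image, Set.Finite.mem_toFinset]
    refine ⟨_, hR2 r hr, ?_⟩
    simp only [er, List.map_map, Prod.mk.injEq, true_and]
    apply List.map_congr_left
    rintro (q | x) _ <;> rfl

/-- the states of the automaton for the language of a start rule of the third kind -/
def Fm {Q : Type} (μ : Q → NT) (β : List (Q ⊕ ℕ)) (h : ℕ) : Set (List (Q ⊕ ℕ)) :=
  {γ | γ <:+ β ∨ (∃ q, μ q = .r ∧ γ = [Sum.inl q, Sum.inr h]) ∨ γ = [Sum.inr h]}

theorem Fm_finite {Q : Type} [Finite Q] (μ : Q → NT) (β : List (Q ⊕ ℕ)) (h : ℕ) :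
    (Fm μ β h).Finite := by
  refine Set.Finite.union ?_ (Set.Finite.union ?_ (Set.finite_singleton _))
  · have : {γ | γ <:+ β} = {γ | γ ∈ β.tails} := by ext γ; simp
    have h2 : {γ : List (Q ⊕ ℕ) | γ <:+ β}.Finite := by
      rw [this]; exact List.finite_toSet _
    exact h2
  · refine (Set.finite_range (fun q : Q => [Sum.inl q, Sum.inr h])).subset ?_
    rintro γ ⟨q, _, rfl⟩
    exact ⟨q, rfl⟩

theorem inclusion {τ : ℕ → ℕ} {L : Set (List ℕ)} {v : List (LL S)}
    (hM : ∀ i a, (fS P i a).length < M) (hM1 : 1 < M)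
    (hv : ∀ u : List (LL S), u ≠ [] → (∀ x ∈ u, Good x) →
      ∃ i, v ++ u ∉ KK (fS P i) (bS z i))
    (hL : Gen (G1 P z c all M hc v).dat τ L) : Gen (G2 P z c all M hc).dat τ L := by
  classical
  obtain ⟨Q, hQ, μ, s, R, D, hs, hD, hR, hRD, rfl⟩ := typed_of_gen hL
  let RA : Set (Q × List (Q ⊕ ℕ)) := {r | r ∈ R ∧ (μ r.1, r.2.map (Sum.map μ τ)) ∈ RS2 P z c all M}
  have hLA : Gen (G2 P z c all M hc).dat τ {w | Der (ExR RA) [Sum.inl s] w} :=
    gen_of_typed hs hD (fun r hr => hr.2) (fun r hr => hRD r hr.1)
  let I := {β : List (Q ⊕ ℕ) // (s, β) ∈ R ∧ β.map (Sum.map μ τ) = rv c v}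
  have hI : Finite I := by
    have hE : (Set.range (Sum.inl : Q → Q ⊕ ℕ) ∪ Sum.inr '' (D : Set ℕ)).Finite :=
      (Set.finite_range _).union (Set.Finite.image _ D.finite_toSet)
    refine (finite_words _ hE ((rv c v).length + 1)).subset ?_
    rintro β ⟨h1, h2⟩
    refine ⟨?_, ?_⟩
    · intro x hx
      cases x with
      | inl q => exact Or.inl ⟨q, rfl⟩
      | inr x => exact Or.inr ⟨x, hRD _ h1 x hx, rfl⟩
    · rw [← h2]; simp
  have hLB : ∀ i : I, Gen (G2 P z c all M hc).dat τ {w | Der (ExR R) i.1 w} := by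
    rintro ⟨β, hβ, hβv⟩
    -- structure of β
    obtain ⟨a, q0, h, rfl, ha, hq0⟩ : ∃ (a : List ℕ) (q0 : Q) (h : ℕ),
        β = a.map Sum.inr ++ [Sum.inl q0, Sum.inr h] ∧ a.map τ = 5 :: v.map c ∧ μ q0 = .r := by
      have e1 : rv c v = ((5 :: v.map c).map Sum.inr : List (NT ⊕ ℕ)) ++ [Sum.inl .r, Sum.inr 5] := by
        simp [rv, tw, Function.comp_def]
      rw [e1] at hβv
      obtain ⟨β1, β2, rfl, h1, h2⟩ := List.map_eq_append_iff.1 hβv
      obtain ⟨x1, β3, rfl, h3, h4⟩ := List.map_eq_cons_iff.1 h2
      obtain ⟨x2, β4, rfl, h5, h6⟩ := List.map_eq_cons_iff.1 h4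
      rw [List.map_eq_nil_iff] at h6
      subst h6
      obtain ⟨q0, rfl, hq0⟩ : ∃ q0, x1 = Sum.inl q0 ∧ μ q0 = .r := by
        cases x1 with
        | inl q => exact ⟨q, rfl, by simpa using h3⟩
        | inr x => simp at h3
      obtain ⟨h, rfl⟩ : ∃ h, x2 = Sum.inr h := by
        cases x2 with
        | inl q => simp at h5
        | inr x => exact ⟨x, rfl⟩
      have h7 : ∃ a : List ℕ, β1 = a.map Sum.inr ∧ a.map τ = 5 :: v.map c := by
        clear hβ hβv h2 h4
        generalize (5 :: v.map c) = t at h1
        induction β1 generalizing t with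
        | nil =>
          refine ⟨[], rfl, ?_⟩
          cases t with
          | nil => rfl
          | cons y t => simp at h1
        | cons x β1 ih =>
          cases t with
          | nil => simp at h1
          | cons y t =>
            simp only [List.map_cons, List.cons.injEq] at h1
            obtain ⟨a, ha1, ha2⟩ := ih t h1.2
            cases x with
            | inl q => simp at h1
            | inr x =>
              refine ⟨x :: a, by rw [ha1]; rfl, ?_⟩
              rw [List.map_cons, ha2]
              congr 1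
              simpa using h1.1
      obtain ⟨a, rfl, ha⟩ := h7
      exact ⟨a, q0, h, rfl, ha, hq0⟩
    set β : List (Q ⊕ ℕ) := a.map Sum.inr ++ [Sum.inl q0, Sum.inr h] with hβdef
    let Z := {γ // γ ∈ Fm μ β h}
    have hZ : Finite Z := Fm_finite μ β h
    let tr : Z → ℕ → Z → Prop := fun γ x γ' => γ.1 = Sum.inr x :: γ'.1 ∨
      ∃ q u δ, γ.1 = Sum.inl q :: u ∧ (q, Sum.inr x :: δ) ∈ R ∧ γ'.1 = δ ++ u
    have hrr : ∀ q γ, μ q = .r → (q, γ) ∈ R →
        ∃ x, (γ = [Sum.inr x] ∨ ∃ q', μ q' = .r ∧ γ = [Sum.inr x, Sum.inl q']) := by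
      intro q γ hq hγ
      have h1 := hR _ hγ
      rw [hq] at h1
      obtain ⟨x, -, h2 | h2⟩ := RS1_r P z c all M h1
      · dsimp only at h2
        obtain ⟨y1, γ1, rfl, h3, h4⟩ := List.map_eq_cons_iff.1 h2
        obtain ⟨y2, γ2, rfl, h5, h6⟩ := List.map_eq_cons_iff.1 h4
        rw [List.map_eq_nil_iff] at h6
        subst h6
        cases y1 with
        | inl q => simp at h3
        | inr y1 =>
          cases y2 with
          | inr y => simp at h5
          | inl q' => exact ⟨y1, Or.inr ⟨q', by simpa using h5, rfl⟩⟩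
      · dsimp only at h2
        obtain ⟨y1, γ1, rfl, h3, h4⟩ := List.map_eq_cons_iff.1 h2
        rw [List.map_eq_nil_iff] at h4
        subst h4
        cases y1 with
        | inl q => simp at h3
        | inr y1 => exact ⟨y1, Or.inl rfl⟩
    -- members of Fm starting with a nonterminal
    have hnt : ∀ q u, (Sum.inl q :: u) ∈ Fm μ β h → μ q = .r ∧ u = [Sum.inr h] := by
      rintro q u (h1 | ⟨q', h1, h2⟩ | h1)
      · have key : ∀ a : List ℕ, (Sum.inl q :: u) <:+ a.map Sum.inr ++ [Sum.inl q0, Sum.inr h] →
            μ q = .r ∧ u = [Sum.inr h] := by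
          intro a
          induction a with
          | nil =>
            intro h1
            simp only [List.map_nil, List.nil_append] at h1
            rw [List.suffix_cons_iff] at h1
            rcases h1 with h1 | h1
            · simp only [List.cons.injEq, Sum.inl.injEq] at h1
              exact ⟨by rw [h1.1]; exact hq0, h1.2⟩
            · rw [List.suffix_cons_iff] at h1
              rcases h1 with h1 | h1
              · simp at h1
              · simp at h1
          | cons y a ih =>
            intro h1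
            rw [List.map_cons, List.cons_append, List.suffix_cons_iff] at h1
            rcases h1 with h1 | h1
            · simp at h1
            · exact ih h1
        exact key a h1
      · simp only [List.cons.injEq, Sum.inl.injEq] at h2
        exact ⟨by rw [h2.1]; exact h1, h2.2⟩
      · simp at h1
    have hsuf : ∀ x u, (Sum.inr x :: u) ∈ Fm μ β h → u ∈ Fm μ β h := by
      rintro x u (h1 | ⟨q', h1, h2⟩ | h1)
      · exact Or.inl ((List.suffix_cons _ _).trans h1)
      · simp at h2
      · simp only [List.cons.injEq] at h1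
        rw [h1.2]
        exact Or.inl List.nil_suffix
    have hz0 : β ∈ Fm μ β h := Or.inl List.suffix_rfl
    have hz1 : ([] : List (Q ⊕ ℕ)) ∈ Fm μ β h := Or.inl List.nil_suffix
    have hrun1 : ∀ (γ γ' : Z) (w : List ℕ), NRun tr γ w γ' → ∀ w' : List ℕ, Der (ExR R) γ'.1 w' →
        Der (ExR R) γ.1 (w ++ w') := by
      intro γ γ' w h
      induction h with
      | nil z => intro w' h; exact h
      | cons h1 _ ih =>
        intro w' h'
        have h2 := ih w' h'
        rcases h1 with h1 | ⟨q, u, δ, h1, h3, h4⟩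
        · rw [h1]
          exact Der.ter _ h2
        · rw [h1]
          rw [h4] at h2
          obtain ⟨w1, w2, hw, h5, h6⟩ := h2.split
          rw [List.cons_append, hw]
          exact Der.nt h3 (Der.ter _ h5) h6
    have hrun2 : ∀ (w : List ℕ) (γ : Z), Der (ExR R) γ.1 w → NRun tr γ w ⟨[], hz1⟩ := by
      intro w
      induction w with
      | nil =>
        rintro ⟨γ, hγ⟩ h'
        have : γ = [] := by
          obtain ⟨n, h'⟩ := h'
          cases γ with
          | nil => rfl
          | cons x γ =>
            cases x with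
            | inr x =>
              obtain ⟨w', hw, _⟩ := DerN_inr_inv h'
              simp at hw
            | inl q =>
              obtain ⟨w1, w2, hw, h1, _⟩ := h'.cons_split
              rw [eq_comm, List.append_eq_nil_iff] at hw
              obtain ⟨m, x, rfl, h2, h3⟩ := h1.single_inv
              obtain ⟨hq, -⟩ := hnt _ _ hγ
              rcases hrr _ _ hq h2 with ⟨y, rfl | ⟨q', _, rfl⟩⟩
              · obtain ⟨w', hw', _⟩ := DerN_inr_inv h3
                rw [hw.1] at hw'
                simp at hw'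
              · obtain ⟨w', hw', _⟩ := DerN_inr_inv h3
                rw [hw.1] at hw'
                simp at hw'
        subst this
        exact NRun.nil _
      | cons y w ih =>
        rintro ⟨γ, hγ⟩ h'
        obtain ⟨n, h'⟩ := h'
        cases γ with
        | nil =>
          have := DerN_nil_inv h'
          simp at this
        | cons x γ =>
          cases x with
          | inr x =>
            obtain ⟨w', hw, h2⟩ := DerN_inr_inv h'
            rw [List.cons.injEq] at hw
            obtain ⟨rfl, rfl⟩ := hw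
            exact NRun.cons (z' := ⟨γ, hsuf _ _ hγ⟩) (Or.inl rfl) (ih ⟨γ, hsuf _ _ hγ⟩ ⟨n, h2⟩)
          | inl q =>
            obtain ⟨w1, w2, hw, h1, h4⟩ := h'.cons_split
            obtain ⟨m, x, rfl, h2, h3⟩ := h1.single_inv
            obtain ⟨hq, hu⟩ := hnt _ _ hγ
            subst hu
            rcases hrr _ _ hq h2 with ⟨x', rfl | ⟨q', hq', rfl⟩⟩
            · obtain ⟨w', rfl, h5⟩ := DerN_inr_inv h3
              rw [List.cons_append, List.cons.injEq] at hw
              obtain ⟨rfl, rfl⟩ := hw
              have hmem : ([Sum.inr h] : List (Q ⊕ ℕ)) ∈ Fm μ β h := Or.inr (Or.inr rfl)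
              refine NRun.cons (z' := ⟨[Sum.inr h], hmem⟩)
                (Or.inr ⟨q, [Sum.inr h], [], rfl, h2, rfl⟩) (ih _ ?_)
              rw [DerN_nil_inv h5]
              exact ⟨_, h4⟩
            · obtain ⟨w', rfl, h5⟩ := DerN_inr_inv h3
              rw [List.cons_append, List.cons.injEq] at hw
              obtain ⟨rfl, rfl⟩ := hw
              have hmem : ([Sum.inl q', Sum.inr h] : List (Q ⊕ ℕ)) ∈ Fm μ β h :=
                Or.inr (Or.inl ⟨q', hq', rfl⟩)
              refine NRun.cons (z' := ⟨[Sum.inl q', Sum.inr h], hmem⟩)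
                (Or.inr ⟨q, [Sum.inr h], [Sum.inl q'], rfl, h2, rfl⟩) (ih _ ?_)
              exact Der.append (u := [Sum.inl q']) ⟨_, h5⟩ ⟨_, h4⟩
    have hset : {w | Der (ExR R) β w} = {w | NRun tr ⟨β, hz0⟩ w ⟨[], hz1⟩} := by
      ext w
      simp only [Set.mem_ofPred_eq]
      constructor
      · intro h; exact hrun2 w ⟨β, hz0⟩ h
      · intro h'
        have := hrun1 _ _ _ h' [] Der.nil
        simpa using this
    have hlet : ∀ w, Der (ExR R) β w → ∀ x ∈ w, x ∈ D := by
      rintro w ⟨n, hw⟩
      exact DerN_letters hRD hw (fun x hx => hRD _ hβ x hx)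
    change Gen _ τ {w | Der (ExR R) β w}
    rw [hset]
    refine gen_reg _ τ tr D _ _ hD ?_ ?_
    · intro w hw
      apply hlet
      have : w ∈ {w | NRun tr ⟨β, hz0⟩ w ⟨[], hz1⟩} := hw
      rw [← hset] at this
      exact this
    · intro w hw
      have hw' : w ∈ {w | NRun tr ⟨β, hz0⟩ w ⟨[], hz1⟩} := hw
      rw [← hset] at hw'
      obtain ⟨n, hn⟩ := hw'
      obtain ⟨w1, rfl, h1⟩ := DerN_ters_inv hn
      obtain ⟨w2, w3, rfl, h2, h3⟩ := h1.cons_split
      obtain ⟨w4, rfl, h4⟩ := DerN_inr_inv h3
      obtain rfl := DerN_nil_inv h4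
      have h5 := DerN_typed hR h2
      simp only [List.map_cons, List.map_nil, Sum.map_inl, hq0] at h5
      obtain ⟨u, hu1, hu2, hu3⟩ := sound_r P z c all M _ _ h5
      have h6 : τ h = 5 := by
        have e2 : rv c v = (Sum.inr 5 :: (tw c v ++ [Sum.inl .r])) ++ [Sum.inr 5] := by simp [rv]
        rw [e2] at hβv
        have h7 := congrArg List.getLast? hβv
        rw [List.getLast?_append_of_ne_nil _ (by simp)] at h7
        simpa [hβdef] using h7
      obtain ⟨i, hi⟩ := hv u hu1 hu2
      have h8 : (a ++ (w2 ++ [h])).map τ = 5 :: ((v ++ u).map c ++ [5]) := by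
        rw [List.map_append, List.map_append, ha, hu3]
        simp [h6]
      rw [h8]
      exact G2_complete P z c all M hc hM hM1 (by simp [hu1]) hi
  have hunion : {w | Der (ExR R) [Sum.inl s] w} =
      ⋃ o : Option I, (match o with
        | none => {w | Der (ExR RA) [Sum.inl s] w}
        | some i => {w | Der (ExR R) i.1 w}) := by
    ext w
    rw [Set.mem_iUnion]
    constructor
    · rintro ⟨n, hw⟩
      obtain ⟨m, β, rfl, hβ, hd⟩ := hw.single_inv
      have h1 := hR _ hβ
      rw [hs] at h1
      -- nonterminals of types c1 c2 u derive through RA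
      have hRA : ∀ (n : ℕ) (u : List (Q ⊕ ℕ)) (w : List ℕ), DerN (ExR R) n u w →
          (∀ q, Sum.inl q ∈ u → μ q ≠ .s ∧ μ q ≠ .r) → DerN (ExR RA) n u w := by
        intro n u w h
        induction h with
        | nil n => intro _; exact DerN.nil n
        | ter a _ ih =>
          intro h
          exact DerN.ter a (ih (fun q hq => h q (List.mem_cons_of_mem _ hq)))
        | @nt n q x u w1 w2 hx _ _ ih1 ih2 =>
          intro h
          have hq := h q List.mem_cons_self
          have h2 := hR _ hx
          have h3 : R2 P z c all M (μ q) (x.map (Sum.map μ τ)) := by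
            rcases h2 with h2 | h2 | h2
            · exact h2
            · have key : ∀ t γ, RR c t γ → t = μ q → False := by
                intro t γ h3 h4
                cases h3 <;> exact hq.2 h4.symm
              exact (key _ _ h2 rfl).elim
            · rw [Prod.mk.injEq] at h2
              exact absurd h2.1 hq.1
          refine DerN.nt (⟨hx, h3⟩ : (q, x) ∈ RA) (ih1 ?_)
            (ih2 (fun q hq => h q (List.mem_cons_of_mem _ hq)))
          intro q' hq'
          have h4 : (Sum.inl (μ q') : NT ⊕ ℕ) ∈ x.map (Sum.map μ τ) :=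
            List.mem_map.2 ⟨_, hq', rfl⟩
          rcases (R2_mem P z c all M h3).2 _ h4 with h5 | h5 | h5 | h5 | ⟨y, h5⟩ <;>
            simp at h5 <;> simp [h5]
      rcases h1 with h1 | h1 | h1
      · refine ⟨none, ?_⟩
        refine Der.single (⟨hβ, ?_⟩ : (s, β) ∈ RA) ⟨m, hRA _ _ _ hd ?_⟩
        · rw [hs]; exact h1
        · intro q hq
          have h4 : (Sum.inl (μ q) : NT ⊕ ℕ) ∈ β.map (Sum.map μ τ) := List.mem_map.2 ⟨_, hq, rfl⟩
          rcases (R2_mem P z c all M h1).2 _ h4 with h5 | h5 | h5 | h5 | ⟨y, h5⟩ <;>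
            simp at h5 <;> simp [h5]
      · have key : ∀ t γ, RR c t γ → t = .s → False := by
          intro t γ h3 h4
          cases h3 <;> simp at h4
        exact (key _ _ h1 rfl).elim
      · rw [Prod.mk.injEq] at h1
        exact ⟨some ⟨β, hβ, h1.2⟩, ⟨m, hd⟩⟩
    · rintro ⟨_ | ⟨β, hβ, hβv⟩, hw⟩
      · obtain ⟨n, hw⟩ := hw
        exact ⟨n, DerN_mono (fun r hr => hr.1) hw⟩
      · exact Der.single hβ hw
  rw [hunion]
  refine Gen.iUnion (Option I) _ ?_
  rintro (_ | i)
  · exact hLA
  · exact hLB i

theorem fam_sub (v : List (LL S)) : family (G2 P z c all M hc) ⊆ family (G1 P z c all M hc v) := by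
  rintro L ⟨G', σ, hI, rfl⟩
  refine ⟨G', σ, ⟨hI.disjoint, hI.nonterminals, hI.terminals, hI.start, ?_⟩, rfl⟩
  intro p hp
  obtain ⟨q, hq, h1, h2⟩ := hI.productions p hp
  refine ⟨q, ?_, h1, h2⟩
  simp only [G2, G1, mkG, Finset.mem_image, Set.Finite.mem_toFinset] at hq ⊢
  obtain ⟨r, hr, rfl⟩ := hq
  exact ⟨r, RS2_subset P z c all M v hr, rfl⟩

theorem self_family (G : Grammar) : G.language ∈ family G := by
  refine ⟨G, fun x => {x}, ⟨?_, ?_, ?_, ?_, ?_⟩, rfl⟩
  · intro x _ y _ h
    simpa using h
  · simp
  · simp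
  · simp
  · intro p hp
    refine ⟨p, hp, by simp, ?_⟩
    rw [List.forall₂_same]
    simp

theorem family_eq_iff (v : List (LL S)) (hM : ∀ i a, (fS P i a).length < M) (hM1 : 1 < M)
    (hall : ∀ x, x ∈ all) (hci : Function.Injective c) :
    family (G1 P z c all M hc v) = family (G2 P z c all M hc) ↔
      ∀ u : List (LL S), u ≠ [] → (∀ x ∈ u, Good x) →
      ∃ i, v ++ u ∉ KK (fS P i) (bS z i) := by
  constructor
  · intro heq u hu hgood
    have h1 := self_family (G1 P z c all M hc v)
    rw [heq] at h1
    obtain ⟨τ, hG⟩ := fam_gen h1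
    obtain ⟨Q, hQ, μ, s, R, D, hs, hD, hR, hRD, hL⟩ := typed_of_gen hG
    have hmap : ∀ w ∈ (G1 P z c all M hc v).language, w.map τ ∈ (G2 P z c all M hc).language := by
      intro w hw
      rw [hL] at hw
      obtain ⟨n, hw⟩ := hw
      have := DerN_typed hR hw
      rw [G2, mkG_language]
      simp only [List.map_cons, List.map_nil, Sum.map_inl, hs] at this
      exact ⟨n, this⟩
    have hspec : spec c all ∈ (G1 P z c all M hc v).language := by
      rw [G1, mkG_language]
      obtain ⟨n, hn⟩ := spec_mem P z c all M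
      exact ⟨n, DerN_mono (RS2_subset P z c all M v) hn⟩
    have h5 : τ 5 = 5 := by
      have h2 := hmap _ hspec
      rcases G2_sound P z c all M hc h2 with h | ⟨i, w0, _, h⟩
      · simp only [spec, List.map_append, List.map_cons, List.cons_append, List.nil_append,
          List.cons.injEq] at h
        exact h.1
      · simp only [spec, List.map_append, List.map_cons, List.cons_append, List.nil_append,
          List.cons.injEq] at h
        exact h.1
    have hid : ∀ x, τ (c x) = c x := by
      have h2 := hmap _ hspec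
      rcases G2_sound P z c all M hc h2 with h | ⟨i, w0, _, h⟩
      · simp only [spec, List.map_append, List.map_cons, List.cons_append, List.nil_append,
          List.cons.injEq, List.map_nil, List.map_map] at h
        have h3 := h.2.2
        have h4 := (List.append_inj' h3 (by simp)).1
        intro x
        rw [List.map_inj_left] at h4
        exact h4 x (hall x)
      · exfalso
        simp only [spec, List.map_append, List.map_cons, List.cons_append, List.nil_append,
          List.cons.injEq, List.map_nil, List.map_map, h5] at h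
        have h3 := h.2
        cases w0 with
        | nil => simp at h3
        | cons x w0 =>
          simp only [List.map_cons, List.cons_append, List.cons.injEq] at h3
          have := hc x
          omega
    by_contra hcon
    push Not at hcon
    have hw : 5 :: ((v ++ u).map c ++ [5]) ∈ (G1 P z c all M hc v).language := by
      rw [G1, mkG_language]
      refine Der.single (q := NT.s) (x := rv c v) (Or.inr (Or.inr rfl)) ?_
      rw [List.map_append, List.append_assoc]
      refine Der.ter _ ((tw_der c v).append ?_)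
      refine Der.append (u := [Sum.inl NT.r]) ?_ (Der.ter _ Der.nil)
      clear hcon
      induction u with
      | nil => exact absurd rfl hu
      | cons x u ih =>
        have hx := hgood x List.mem_cons_self
        cases u with
        | nil =>
          exact Der.single (Or.inr (Or.inl (RR.r2 x hx))) (Der.ter _ Der.nil)
        | cons y u =>
          exact Der.single (Or.inr (Or.inl (RR.r1 x hx)))
            (Der.ter _ (ih (by simp) (fun t ht => hgood t (List.mem_cons_of_mem _ ht))))
    have hw2 := hmap _ hw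
    have e1 : (5 :: ((v ++ u).map c ++ [5])).map τ = 5 :: ((v ++ u).map c ++ [5]) := by
      simp only [List.map_cons, List.map_append, List.map_map, h5, List.map_nil]
      congr 2
      congr 1 <;> (apply List.map_congr_left; intro x _; exact hid x)
    rw [e1] at hw2
    rcases G2_sound P z c all M hc hw2 with h | ⟨i, w0, h1, h⟩
    · have hlen : v ++ u ≠ [] := by simp [hu]
      obtain ⟨x, t, hxt⟩ := List.exists_cons_of_ne_nil hlen
      rw [hxt] at h
      simp only [spec, List.map_cons, List.cons_append, List.nil_append, List.cons.injEq] at h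
      have := hc x
      omega
    · simp only [List.cons.injEq, true_and] at h
      have h2 := (List.append_inj' h rfl).1
      have h3 := List.map_injective_iff.2 hci h2
      rw [← h3] at h1
      exact h1 (hcon i)
  · intro hv
    refine Set.Subset.antisymm ?_ (fam_sub v)
    intro L hL
    obtain ⟨τ, hG⟩ := fam_gen hL
    exact gen_fam (inclusion hM hM1 hv hG)

end

end Pool.Agent.H639R2.FE
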