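import Pool.Agent.H639R2.FE.Defs
import Pool.Agent.Helper230.GFGen

/-! Typed interpretations and grammatical families (adapted from the file UnaryComplete of problem
8f9e48). -/

namespace Pool.Agent.H639R2.FE

open Pool.Agent.Helper230

theorem Grammar.not_mem {G : Grammar} {x : ℕ} (h : x ∈ G.N) : x ∉ G.T :=
  fun h' => (Finset.disjoint_left.1 G.disj) h h'

def Grammar.dat (G : Grammar) : GDat where
  N := G.N
  T := G.T
  S := G.S
  P := G.P
  disj := fun _ h h' => G.not_mem h h'
  hS := G.start_mem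
  wf := fun p hp => ⟨(G.wf p hp).1, (G.wf p hp).2.2⟩

theorem all_ters {Q : Type} {T' : Finset ℕ} (e : Q → ℕ) (he : ∀ q, e q ∉ T')
    (U : List (Q ⊕ ℕ)) (hw : ∀ x ∈ U.map (Sum.elim e id), x ∈ T') :
    U = (U.map (Sum.elim e id)).map Sum.inr := by
  induction U with
  | nil => rfl
  | cons x U ih =>
    have ih' := ih (fun y hy => hw y (by rw [List.map_cons]; exact List.mem_cons_of_mem _ hy))
    cases x with
    | inl q => exact absurd (hw (e q) (by simp)) (he q)
    | inr x =>
      rw [List.map_cons, List.map_cons, ← ih']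
      rfl

theorem lang_eq (G' : Grammar) {Q : Type} (e : Q → ℕ) (R : Set (Q × List (Q ⊕ ℕ))) (s : Q)
    (hs : G'.S = e s) (he : ∀ q, e q ∈ G'.N)
    (h1 : ∀ q β, (q, β) ∈ R → (e q, β.map (Sum.elim e id)) ∈ G'.P ∧
      ∀ x, Sum.inr x ∈ β → x ∈ G'.T)
    (h2 : ∀ q γ, (e q, γ) ∈ G'.P → ∃ β, (q, β) ∈ R ∧ γ = β.map (Sum.elim e id)) :
    G'.language = {w | Der (ExR R) [Sum.inl s] w} := by
  ext w
  constructor
  · rintro ⟨hw, hd⟩
    have key : ∀ u, Relation.ReflTransGen G'.Step u w → ∀ U : List (Q ⊕ ℕ),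
        u = U.map (Sum.elim e id) → (∀ x, Sum.inr x ∈ U → x ∈ G'.T) → Der (ExR R) U w := by
      intro u hu
      induction hu using Relation.ReflTransGen.head_induction_on with
      | refl =>
        intro U hU _
        have : U = w.map Sum.inr := by
          subst hU
          exact all_ters (T' := G'.T) e (fun q => G'.not_mem (he q)) U hw
        rw [this]
        exact Der.of_ters w
      | head hstep _ ih =>
        intro U hU hT
        obtain ⟨l, r, A, β, hA, rfl, rfl⟩ := hstep
        obtain ⟨U1, U2, rfl, h3, h4⟩ := List.map_eq_append_iff.1 hU.symm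
        obtain ⟨x, U3, rfl, h5, h6⟩ := List.map_eq_cons_iff.1 h4
        cases x with
        | inr x =>
          exfalso
          have h7 : x = A := h5
          subst h7
          exact G'.not_mem (G'.wf _ hA).1 (hT x (by simp))
        | inl q =>
          have h7 : e q = A := h5
          subst h7
          obtain ⟨β0, hβ0, rfl⟩ := h2 q β hA
          have h8 := ih (U1 ++ β0 ++ U3) (by simp [h3, h6]) (by
            intro x hx
            rw [List.mem_append, List.mem_append] at hx
            rcases hx with (hx | hx) | hx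
            · exact hT x (List.mem_append_left _ hx)
            · exact (h1 _ _ hβ0).2 x hx
            · exact hT x (List.mem_append_right _ (List.mem_cons_of_mem _ hx)))
          exact Der.of_step ⟨U1, U3, q, β0, rfl, hβ0, rfl⟩ h8
    exact key _ hd [Sum.inl s] (by simp [hs]) (by simp)
  · rintro hd
    have hd' := (rtg_iff_Der _ _).2 hd
    obtain ⟨n, hn⟩ := hd
    refine ⟨?_, ?_⟩
    · exact DerN_letters (D := G'.T) (fun r hr x hx => (h1 r.1 r.2 hr).2 x hx) hn (by simp)
    · have h3 : ∀ u v, Step (ExR R) u v →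
          G'.Step (u.map (Sum.elim e id)) (v.map (Sum.elim e id)) := by
        rintro _ _ ⟨pre, suf, q, x, rfl, hx, rfl⟩
        exact ⟨pre.map (Sum.elim e id), suf.map (Sum.elim e id), e q, x.map (Sum.elim e id),
          (h1 _ _ hx).1, by simp, by simp⟩
      have h4 := Relation.ReflTransGen.lift (r := Step (ExR R)) (p := G'.Step)
        (fun u => u.map (Sum.elim e id)) h3 _ _ hd'
      have h5 : (w.map (Sum.inr : ℕ → Q ⊕ ℕ)).map (Sum.elim e id) = w := by
        rw [List.map_map]
        conv_rhs => rw [← List.map_id w]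
        rfl
      simp only [Function.onFun] at h4
      rw [h5] at h4
      simpa [hs] using h4

theorem fam_gen {G : Grammar} {L : Set (List ℕ)} (hL : L ∈ family G) :
    ∃ τ : ℕ → ℕ, Gen G.dat τ L := by
  classical
  obtain ⟨G', σ, hI, rfl⟩ := hL
  have hN : ∀ q : {x // x ∈ G'.N}, ∃ A ∈ G.N, q.1 ∈ σ A := by
    rintro ⟨q, hq⟩
    rw [hI.nonterminals, Finset.mem_biUnion] at hq
    exact hq
  choose ν hν1 hν2 using hN
  have hT : ∀ x : ℕ, ∃ t, x ∈ G'.T → t ∈ G.T ∧ x ∈ σ t := by
    intro x
    by_cases hx : x ∈ G'.T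
    · rw [hI.terminals, Finset.mem_biUnion] at hx
      obtain ⟨t, ht, hxt⟩ := hx
      exact ⟨t, fun _ => ⟨ht, hxt⟩⟩
    · exact ⟨0, fun h => absurd h hx⟩
  choose τ hτ using hT
  have huniq : ∀ z x y, x ∈ G.N ∪ G.T → y ∈ G.N ∪ G.T → z ∈ σ x → z ∈ σ y → x = y := by
    intro z x y hx hy h1 h2
    by_contra hne
    exact (Finset.disjoint_left.1 (hI.disjoint x hx y hy hne)) h1 h2
  let e : {x // x ∈ G'.N} → ℕ := Subtype.val
  let R : Set ({x // x ∈ G'.N} × List ({x // x ∈ G'.N} ⊕ ℕ)) :=
    {r | (e r.1, r.2.map (Sum.elim e id)) ∈ G'.P ∧ ∀ x, Sum.inr x ∈ r.2 → x ∈ G'.T}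
  refine ⟨τ, {x // x ∈ G'.N}, inferInstance, ν, ⟨G'.S, G'.start_mem⟩, R, G'.T, ?_, hν1, ?_, ?_, ?_,
    ?_⟩
  · exact huniq G'.S _ _ (Finset.mem_union_left _ (hν1 _)) (Finset.mem_union_left _ G.start_mem)
      (hν2 ⟨G'.S, G'.start_mem⟩) hI.start
  · intro x hx
    exact (hτ x hx).1
  · rintro ⟨q, β⟩ ⟨hr, hx⟩
    obtain ⟨⟨A, γ⟩, hq, hA, hF⟩ := hI.productions _ hr
    dsimp only at hA hF hx ⊢
    have hwf := G.wf _ hq
    have h1 : ν q = A := huniq q.1 _ _ (Finset.mem_union_left _ (hν1 q))
      (Finset.mem_union_left _ hwf.1) (hν2 q) hA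
    have h2 : β.map (Sum.elim ν τ) = γ := by
      have hγ : ∀ x ∈ γ, x ∈ G.N ∪ G.T := fun x hx => Finset.mem_union.2 (hwf.2.2 x hx)
      clear hr hq hwf
      induction β generalizing γ with
      | nil =>
        cases γ with
        | nil => rfl
        | cons y γ => simp at hF
      | cons x β ih =>
        cases γ with
        | nil => simp at hF
        | cons y γ =>
          rw [List.map_cons, List.forall₂_cons] at hF
          rw [List.map_cons, ih (fun y hy => hx y (List.mem_cons_of_mem _ hy)) γ hF.2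
            (fun y hy => hγ y (List.mem_cons_of_mem _ hy))]
          congr 1
          cases x with
          | inl q' =>
            exact huniq q'.1 _ _ (Finset.mem_union_left _ (hν1 q')) (hγ y List.mem_cons_self)
              (hν2 q') hF.1
          | inr x =>
            have hxT := hx x List.mem_cons_self
            exact huniq x _ _ (Finset.mem_union_right _ (hτ x hxT).1)
              (hγ y List.mem_cons_self) (hτ x hxT).2 hF.1
    rw [h1, h2]
    exact hq
  · rintro ⟨q, β⟩ ⟨_, hx⟩ x h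
    exact hx x h
  · refine lang_eq G' e R _ rfl (fun q => q.2) (fun q β h => ⟨h.1, h.2⟩) ?_
    intro q γ hγ
    have hwf := (G'.wf _ hγ).2.2
    let lf : ℕ → {x // x ∈ G'.N} ⊕ ℕ := fun x => if h : x ∈ G'.N then Sum.inl ⟨x, h⟩ else Sum.inr x
    have h1 : (γ.map lf).map (Sum.elim e id) = γ := by
      rw [List.map_map]
      conv_rhs => rw [← List.map_id γ]
      apply List.map_congr_left
      intro x _
      simp only [Function.comp_apply, lf]
      split_ifs <;> rfl
    refine ⟨γ.map lf, ⟨?_, ?_⟩, h1.symm⟩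
    · dsimp only
      rw [h1]; exact hγ
    · intro x hx
      obtain ⟨y, hy, hxy⟩ := List.mem_map.1 hx
      simp only [lf] at hxy
      split_ifs at hxy with h
      have : y = x := by simpa using hxy
      subst this
      rcases hwf y hy with h2 | h2
      · exact absurd h2 h
      · exact h2

theorem finite_words {α : Type} (E : Set α) (hE : E.Finite) (r : ℕ) :
    {w : List α | (∀ x ∈ w, x ∈ E) ∧ w.length < r}.Finite := by
  have : Finite E := hE
  have h : {w : List α | (∀ x ∈ w, x ∈ E) ∧ w.length < r} ⊆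
      (fun w : List E => w.map Subtype.val) '' {w : List E | w.length < r} := by
    rintro w ⟨hw, hr⟩
    refine ⟨w.attach.map (fun x => ⟨x.1, hw x.1 x.2⟩), ?_, ?_⟩
    · simpa using hr
    · simp
  exact Set.Finite.subset (Set.Finite.image _ (List.finite_length_lt E r)) h

theorem gen_fam {G : Grammar} {τ : ℕ → ℕ} {L : Set (List ℕ)} (hL : Gen G.dat τ L) :
    L ∈ family G := by
  classical
  obtain ⟨Q, hQ, ν, s, R, D, hs, hN, hD, hR, hRD, rfl⟩ := hL
  have : Fintype Q := Fintype.ofFinite Q
  obtain ⟨idx, hidx⟩ := exists_injective_nat Q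
  let M : ℕ := D.sup id + 1
  have hM : ∀ x ∈ D, x < M := fun x hx => Nat.lt_succ_of_le (Finset.le_sup (f := id) hx)
  let e : Q → ℕ := fun q => M + 2 * idx q
  let fr : ℕ → ℕ := fun y => M + 2 * y + 1
  have he : Function.Injective e := by
    intro q q' h
    apply hidx
    simp only [e] at h
    omega
  let σ : ℕ → Finset ℕ := fun y =>
    if y ∈ G.N then (Finset.univ.filter (fun q => ν q = y)).image e ∪ {fr y}
    else if y ∈ G.T then D.filter (fun x => τ x = y) ∪ {fr y} else ∅
  have hσN : ∀ y ∈ G.N, ∀ z, z ∈ σ y ↔ (∃ q, ν q = y ∧ e q = z) ∨ z = fr y := by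
    intro y hy z
    simp only [σ, if_pos hy, Finset.mem_union, Finset.mem_image, Finset.mem_filter,
      Finset.mem_univ, true_and, Finset.mem_singleton]
  have hσT : ∀ y ∈ G.T, ∀ z, z ∈ σ y ↔ (z ∈ D ∧ τ z = y) ∨ z = fr y := by
    intro y hy z
    have hy' : y ∉ G.N := fun h => G.not_mem h hy
    simp only [σ, if_neg hy', if_pos hy, Finset.mem_union, Finset.mem_filter,
      Finset.mem_singleton]
  have hdisj : ∀ x ∈ G.N ∪ G.T, ∀ y ∈ G.N ∪ G.T, x ≠ y → Disjoint (σ x) (σ y) := by
    intro x hx y hy hne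
    rw [Finset.disjoint_left]
    intro z hz1 hz2
    rcases Finset.mem_union.1 hx with hx | hx <;> rcases Finset.mem_union.1 hy with hy | hy
    · rw [hσN x hx] at hz1
      rw [hσN y hy] at hz2
      rcases hz1 with ⟨q, rfl, rfl⟩ | rfl <;> rcases hz2 with ⟨q', h1, h2⟩ | h2
      · rw [he h2] at h1; exact hne h1
      · simp only [e, fr] at h2; omega
      · simp only [e, fr] at h2; omega
      · simp only [fr] at h2; omega
    · rw [hσN x hx] at hz1
      rw [hσT y hy] at hz2
      rcases hz1 with ⟨q, rfl, rfl⟩ | rfl <;> rcases hz2 with ⟨h1, h2⟩ | h2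
      · have := hM _ h1; simp only [e] at this; omega
      · simp only [e, fr] at h2; omega
      · have := hM _ h1; simp only [fr] at this; omega
      · simp only [fr] at h2; omega
    · rw [hσT x hx] at hz1
      rw [hσN y hy] at hz2
      rcases hz2 with ⟨q, rfl, rfl⟩ | rfl <;> rcases hz1 with ⟨h1, h2⟩ | h2
      · have := hM _ h1; simp only [e] at this; omega
      · simp only [e, fr] at h2; omega
      · have := hM _ h1; simp only [fr] at this; omega
      · simp only [fr] at h2; omega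
    · rw [hσT x hx] at hz1
      rw [hσT y hy] at hz2
      rcases hz1 with ⟨h1, h2⟩ | h2 <;> rcases hz2 with ⟨h3, h4⟩ | h4
      · exact hne (h2.symm.trans h4)
      · have := hM _ h1; simp only [fr] at h4; omega
      · have := hM _ h3; simp only [fr] at h2; omega
      · rw [h2] at h4; simp only [fr] at h4; omega
  have henc : ∀ β : List (Q ⊕ ℕ), (∀ x, Sum.inr x ∈ β → x ∈ D) → ∀ z ∈ β,
      Sum.elim e id z ∈ σ (Sum.elim ν τ z) := by
    intro β hβ z hz
    cases z with
    | inl q =>
      simp only [Sum.elim_inl]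
      rw [hσN _ (hN q)]
      exact Or.inl ⟨q, rfl, rfl⟩
    | inr x =>
      simp only [Sum.elim_inr, id_eq]
      rw [hσT _ (hD x (hβ x hz))]
      exact Or.inl ⟨hβ x hz, rfl⟩
  -- finiteness of the rules
  have hRfin : R.Finite := by
    obtain ⟨n, hn⟩ : ∃ n, ∀ p ∈ G.P, p.2.length < n := by
      refine ⟨G.P.sup (fun p => p.2.length) + 1, fun p hp => Nat.lt_succ_of_le ?_⟩
      exact Finset.le_sup (f := fun p : ℕ × List ℕ => p.2.length) hp
    have hE : (Set.range (Sum.inl : Q → Q ⊕ ℕ) ∪ Sum.inr '' (D : Set ℕ)).Finite :=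
      (Set.finite_range _).union (Set.Finite.image _ D.finite_toSet)
    refine ((Set.finite_univ (α := Q)).prod (finite_words _ hE n)).subset ?_
    rintro ⟨q, β⟩ hr
    refine ⟨Set.mem_univ _, ?_, ?_⟩
    · intro x hx
      cases x with
      | inl q => exact Or.inl ⟨q, rfl⟩
      | inr x => exact Or.inr ⟨x, hRD _ hr x hx, rfl⟩
    · have := hn _ (hR _ hr)
      simpa using this
  let P' : Finset (ℕ × List ℕ) :=
    hRfin.toFinset.image (fun r => (e r.1, r.2.map (Sum.elim e id)))
  have hP' : ∀ p, p ∈ P' ↔ ∃ q β, (q, β) ∈ R ∧ (e q, β.map (Sum.elim e id)) = p := by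
    intro p
    simp only [P', Finset.mem_image, Set.Finite.mem_toFinset, Prod.exists]
  let G' : Grammar :=
    { N := G.N.biUnion σ
      T := G.T.biUnion σ
      S := e s
      P := P'
      disj := by
        rw [Finset.disjoint_left]
        intro z h1 h2
        rw [Finset.mem_biUnion] at h1 h2
        obtain ⟨x, hx, hzx⟩ := h1
        obtain ⟨y, hy, hzy⟩ := h2
        have hne : x ≠ y := fun h => G.not_mem hx (h ▸ hy)
        exact (Finset.disjoint_left.1 (hdisj x (Finset.mem_union_left _ hx) y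
          (Finset.mem_union_right _ hy) hne)) hzx hzy
      start_mem := Finset.mem_biUnion.2 ⟨ν s, hN s, by rw [hσN _ (hN s)]; exact Or.inl ⟨s, rfl, rfl⟩⟩
      wf := by
        intro p hp
        obtain ⟨q, β, hr, rfl⟩ := (hP' p).1 hp
        refine ⟨?_, ?_, ?_⟩
        · exact Finset.mem_biUnion.2 ⟨ν q, hN q, by rw [hσN _ (hN q)]; exact Or.inl ⟨q, rfl, rfl⟩⟩
        · have := (G.wf _ (hR _ hr)).2.1
          simpa using this
        · intro x hx
          obtain ⟨z, hz, rfl⟩ := List.mem_map.1 hx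
          have h1 := henc β (hRD _ hr) z hz
          cases z with
          | inl q' => exact Or.inl (Finset.mem_biUnion.2 ⟨ν q', hN q', h1⟩)
          | inr x' => exact Or.inr (Finset.mem_biUnion.2 ⟨τ x', hD _ (hRD _ hr _ hz), h1⟩) }
  refine ⟨G', σ, ⟨hdisj, rfl, rfl, ?_, ?_⟩, ?_⟩
  · change e s ∈ σ G.S
    have h1 : G.S = ν s := hs.symm
    rw [h1, hσN _ (hN s)]
    exact Or.inl ⟨s, rfl, rfl⟩
  · intro p hp
    obtain ⟨q, β, hr, rfl⟩ := (hP' p).1 hp
    refine ⟨(ν q, β.map (Sum.elim ν τ)), hR _ hr, ?_, ?_⟩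
    · change e q ∈ σ (ν q)
      rw [hσN _ (hN q)]; exact Or.inl ⟨q, rfl, rfl⟩
    · change List.Forall₂ _ (β.map (Sum.elim e id)) (β.map (Sum.elim ν τ))
      have h1 := henc β (hRD _ hr)
      rw [List.forall₂_map_left_iff, List.forall₂_map_right_iff, List.forall₂_same]
      exact h1
  · symm
    refine lang_eq G' e R s rfl ?_ ?_ ?_
    · intro q
      exact Finset.mem_biUnion.2 ⟨ν q, hN q, by rw [hσN _ (hN q)]; exact Or.inl ⟨q, rfl, rfl⟩⟩
    · intro q β hr
      refine ⟨(hP' _).2 ⟨q, β, hr, rfl⟩, ?_⟩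
      intro x hx
      exact Finset.mem_biUnion.2 ⟨τ x, hD _ (hRD _ hr _ hx), henc β (hRD _ hr) (Sum.inr x) hx⟩
    · intro q γ hγ
      obtain ⟨q', β, hr, heq⟩ := (hP' _).1 hγ
      rw [Prod.mk.injEq] at heq
      have := he heq.1
      subst this
      exact ⟨β, hr, heq.2.symm⟩


end Pool.Agent.H639R2.FE
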