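import Pool.Agent.H639R2.FE.Eqv

/-! Undecidability of family equivalence. -/

set_option autoImplicit false

namespace Pool.Agent.H639R2.FE

open Pool.Agent.Helper230

theorem undecidable :
    ¬ ∃ D : Desc × Desc → Prop, ComputablePred D ∧
      ∀ (d₁ d₂ : Desc) (G₁ G₂ : Grammar), Describes d₁ G₁ → Describes d₂ G₂ →
        (D (d₁, d₂) ↔ family G₁ = family G₂) := by
  classical
  rintro ⟨D, hDc, hD⟩
  obtain ⟨K, P, z, t, ht, hun⟩ := exists_source
  apply hun
  -- the coding of letters
  let _ : Fintype (LL (Fin K)) := Fintype.ofFinite _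
  let ee := Fintype.equivFin (LL (Fin K))
  let c : LL (Fin K) → ℕ := fun x => 6 + (ee x : ℕ)
  have hc : ∀ x, 6 ≤ c x := fun x => Nat.le_add_right _ _
  have hci : Function.Injective c := by
    intro x y h
    apply ee.injective
    apply Fin.ext
    simpa [c] using h
  let all : List (LL (Fin K)) := Finset.univ.toList
  have hall : ∀ x, x ∈ all := fun x => by simp [all]
  obtain ⟨M, hM1, hM⟩ : ∃ M, 1 < M ∧ ∀ i a, (fS P i a).length < M := by
    have hfin : (Set.range (fun p : Bool × (Fin K ⊕ (Fin K × Fin K)) =>
        (fS P p.1 p.2).length)).Finite := Set.finite_range _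
    obtain ⟨N, hN⟩ := hfin.bddAbove
    refine ⟨N + 2, by omega, fun i a => ?_⟩
    have := hN ⟨(i, a), rfl⟩
    dsimp only at this
    omega
  let v : ℕ → List (LL (Fin K)) := fun n => (t n).map (fun a => Lt.fr (Sum.inl a))
  have hkey : ∀ n, family (G1 P z c all M hc (v n)) = family (G2 P z c all M hc) ↔
      ¬ Sol P z (t n) := by
    intro n
    rw [family_eq_iff (v n) hM hM1 hall hci, sol_iff]
    constructor
    · rintro h ⟨u, hu1, hu2, hu3, hu4⟩
      obtain ⟨i, hi⟩ := h u hu1 hu2
      cases i
      · exact hi hu4
      · exact hi hu3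
    · intro h u hu1 hu2
      by_contra hcon
      push Not at hcon
      exact h ⟨u, hu1, hu2, hcon true, hcon false⟩
  -- descriptions
  have hRRfin : {r : NT × List (NT ⊕ ℕ) | RR c r.1 r.2}.Finite :=
    (RS1_finite P z c all M []).subset (fun r hr => Or.inr (Or.inl hr))
  let PR : Finset (ℕ × List ℕ) := hRRfin.toFinset.image er
  let P2 : Finset (ℕ × List ℕ) := (G2 P z c all M hc).P
  let d2 : Desc := ((Finset.range 5).toList, (TT c).toList, P2.toList, 0)
  let cod : ℕ → List ℕ := fun n => (v n).map c
  let d1 : ℕ → Desc := fun n =>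
    ((Finset.range 5).toList, (TT c).toList,
      (0, 5 :: (cod n ++ [4, 5])) :: (P2.toList ++ PR.toList), 0)
  have hd2 : Describes d2 (G2 P z c all M hc) := by
    refine ⟨?_, ?_, ?_, rfl⟩
    · simp [d2, G2, mkG]
    · simp [d2, G2, mkG]
    · simp [d2, P2]
  have hd1 : ∀ n, Describes (d1 n) (G1 P z c all M hc (v n)) := by
    intro n
    refine ⟨?_, ?_, ?_, rfl⟩
    · simp [d1, G1, mkG]
    · simp [d1, G1, mkG]
    · ext p
      have herv : er (NT.s, rv c (v n)) = (0, 5 :: (cod n ++ [4, 5])) := by
        simp only [er, rv, tw, e, List.map_cons, List.map_append, List.map_map, List.map_nil,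
          Sum.elim_inr, Sum.elim_inl, id_eq, Prod.mk.injEq, true_and, cod]
        rfl
      simp only [d1, P2, PR, G1, G2, mkG, List.toFinset_cons, List.toFinset_append,
        Finset.toList_toFinset, Finset.mem_insert, Finset.mem_union, Finset.mem_image,
        Set.Finite.mem_toFinset]
      constructor
      · rintro (rfl | ⟨r, hr, rfl⟩ | ⟨r, hr, rfl⟩)
        · exact ⟨_, Or.inr (Or.inr rfl), herv⟩
        · exact ⟨r, Or.inl hr, rfl⟩
        · exact ⟨r, Or.inr (Or.inl hr), rfl⟩
      · rintro ⟨r, hr | hr | rfl, rfl⟩
        · exact Or.inr (Or.inl ⟨r, hr, rfl⟩)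
        · exact Or.inr (Or.inr ⟨r, hr, rfl⟩)
        · exact Or.inl herv
  -- computability
  have hcod : Computable cod := by
    let tab : List ℕ := (List.finRange K).map (fun a => c (Lt.fr (Sum.inl a)))
    have h1 : Primrec (fun l : List ℕ => l.map (fun k => (tab[k]?).getD 0)) := by
      refine Primrec.list_map Primrec.id ?_
      exact (Primrec.option_getD.comp (Primrec.list_getElem?.comp (Primrec.const tab) Primrec.snd)
        (Primrec.const 0)).to₂
    have h2 := h1.to_comp.comp ht
    refine h2.of_eq fun n => ?_
    simp only [cod, v, List.map_map]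
    apply List.map_congr_left
    intro a _
    simp [tab]
  have hd1c : Computable d1 := by
    refine Computable.pair (Computable.const _) (Computable.pair (Computable.const _)
      (Computable.pair ?_ (Computable.const _)))
    refine Computable.list_cons.comp (Computable.pair (Computable.const _) ?_) (Computable.const _)
    refine Computable.list_cons.comp (Computable.const _) ?_
    exact Computable.list_append.comp hcod (Computable.const _)
  have hred : ComputablePred (fun n => D (d1 n, d2)) := by
    refine ComputablePred.computable_of_manyOneReducible ?_ hDc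
    exact ⟨fun n => (d1 n, d2), Computable.pair hd1c (Computable.const _), fun _ => Iff.rfl⟩
  have hnot : ComputablePred (fun n => ¬ D (d1 n, d2)) := ComputablePred.not hred
  refine ComputablePred.of_eq hnot ?_
  intro n
  rw [hD _ _ _ _ (hd1 n) hd2, hkey n, not_not]

end Pool.Agent.H639R2.FE
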