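import Mathlib
import Pool.Agent.Helper322.LT.Univ

/-!
A fixed system of word equations (a form of the correspondence problem) whose solvability is
undecidable.
-/

set_option autoImplicit false

namespace Pool.Agent.H639R2.FE

open Turing Relation Pool.Agent.Helper322.LT.Queue
open Pool.Agent.Helper322.LT

/-- the word `x₁ y₁ x₂ y₂ ...` of a sequence of pairs -/
def gg {S : Type} (s : List (S × S)) : List S := s.flatMap (fun p => [p.1, p.2])

/-- the concatenation of the productions of a sequence of pairs -/
def hh {S : Type} (P : S → S → List S) (s : List (S × S)) : List S := s.flatMap (fun p => P p.1 p.2)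

/-- solvability of the equation `g(s) z = w h(s)` -/
def Sol {S : Type} (P : S → S → List S) (z : S) (w : List S) : Prop :=
  ∃ s : List (S × S), gg s ++ [z] = w ++ hh P s

theorem sol_of_reach {S : Type} {P : S → S → List S} {z : S} {w : List S}
    (h : QReach P w [z]) : Sol P z w := by
  induction h using ReflTransGen.head_induction_on with
  | refl => exact ⟨[], by simp [gg, hh]⟩
  | head hs _ ih =>
    cases hs with
    | mk x y t =>
      obtain ⟨s, hs⟩ := ih
      refine ⟨(x, y) :: s, ?_⟩
      simp only [gg, hh, List.flatMap_cons, List.cons_append, List.nil_append, List.append_assoc]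
        at hs ⊢
      rw [hs]

theorem reach_of_sol {S : Type} {P : S → S → List S} {z : S}
    (hP : ∀ x y, 2 ≤ (P x y).length ∨ P x y = [z]) (s : List (S × S)) :
    ∀ w : List S, w ≠ [] → (w.length = 1 → w = [z]) → gg s ++ [z] = w ++ hh P s →
      QReach P w [z] := by
  induction s with
  | nil =>
    intro w _ _ h
    simp only [gg, hh, List.flatMap_nil, List.nil_append, List.append_nil] at h
    rw [← h]
  | cons p s ih =>
    intro w hw hw1 h
    match w, hw, hw1, h with
    | [x], _, hw1, _ => rw [hw1 rfl]
    | x :: y :: t, _, _, h =>
      simp only [gg, hh, List.flatMap_cons, List.cons_append, List.nil_append,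
        List.cons.injEq] at h
      obtain ⟨h1, h2, h3⟩ := h
      have h4 : QStep P (x :: y :: t) (t ++ P x y) := QStep.mk x y t
      refine ReflTransGen.head h4 (ih _ ?_ ?_ ?_)
      · rcases hP x y with h5 | h5
        · intro h6
          rw [List.append_eq_nil_iff] at h6
          rw [h6.2] at h5
          simp at h5
        · rw [h5]; simp
      · intro h5
        rcases hP x y with h6 | h6
        · rw [List.length_append] at h5
          omega
        · rw [h6, List.length_append] at h5
          have : t = [] := List.eq_nil_of_length_eq_zero (by simpa using h5)
          rw [this, h6]; rfl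
      · rw [← h1, ← h2, List.append_assoc]
        exact h3

theorem exists_source : ∃ (K : ℕ) (P : Fin K → Fin K → List (Fin K)) (z : Fin K)
    (t : ℕ → List (Fin K)), Computable (fun n => (t n).map Fin.val) ∧
      ¬ ComputablePred (fun n => Sol P z (t n)) := by
  classical
  obtain ⟨Λ, i1, i2, M, hM⟩ := Univ.exists_machine
  let S := Queue.Sym (TM2to1.Γ' PartrecToTM2.K' (fun _ => PartrecToTM2.Γ')) Λ
  have fK : Finite PartrecToTM2.K' := by
    refine Finite.of_injective (fun k : PartrecToTM2.K' => match k with
      | .main => (0 : Fin 4)
      | .rev => 1
      | .aux => 2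
      | .stack => 3) ?_
    intro a b h
    cases a <;> cases b <;> simp_all
  have fG : Finite (TM2to1.Γ' PartrecToTM2.K' (fun _ => PartrecToTM2.Γ')) :=
    inferInstanceAs (Finite (Bool × (PartrecToTM2.K' → Option PartrecToTM2.Γ')))
  have fS : Finite S := inferInstanceAs (Finite (Queue.Sym _ _))
  let _ : Fintype S := Fintype.ofFinite S
  let e := Fintype.equivFin S
  let P : S → S → List S := Queue.prod M
  let P' : Fin (Fintype.card S) → Fin (Fintype.card S) → List (Fin (Fintype.card S)) :=
    fun x y => (P (e.symm x) (e.symm y)).map e
  let tape : ℕ → List (TM2to1.Γ' PartrecToTM2.K' (fun _ => PartrecToTM2.Γ')) := fun n =>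
    Univ.sym true .cons :: (PartrecToTM2.trNat n).reverse.map (Univ.sym false)
  have hsol : ∀ w : List S, Sol P' (e Queue.Sym.kill) (w.map e) ↔ Sol P Queue.Sym.kill w := by
    intro w
    have hg : ∀ s : List (S × S), gg (s.map (Prod.map e e)) = (gg s).map e := by
      intro s
      induction s with
      | nil => rfl
      | cons p s ih =>
        simp only [gg, List.map_cons, List.flatMap_cons, List.map_append] at ih ⊢
        rw [ih]; rfl
    have hh' : ∀ s : List (S × S), hh P' (s.map (Prod.map e e)) = (hh P s).map e := by
      intro s
      induction s with
      | nil => rfl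
      | cons p s ih =>
        simp only [hh, List.map_cons, List.flatMap_cons, List.map_append] at ih ⊢
        rw [ih]
        simp [P', Prod.map]
    constructor
    · rintro ⟨s, hs⟩
      refine ⟨s.map (Prod.map e.symm e.symm), ?_⟩
      have h1 : (s.map (Prod.map e.symm e.symm)).map (Prod.map e e) = s := by
        rw [List.map_map]
        conv_rhs => rw [← List.map_id s]
        apply List.map_congr_left
        rintro ⟨x, y⟩ _
        simp [Prod.map]
      rw [← h1, hg, hh'] at hs
      have h2 := congrArg (List.map e.symm) hs
      simpa using h2
    · rintro ⟨s, hs⟩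
      refine ⟨s.map (Prod.map e e), ?_⟩
      rw [hg, hh', ← List.map_append, ← hs]
      simp
  refine ⟨Fintype.card S, P', e Queue.Sym.kill, fun n => (initWord (tape n)).map e, ?_, ?_⟩
  · -- computability
    let c : S → ℕ := fun z => (e z : ℕ)
    have hw : Computable (fun n => (initWord (tape n)).map c) := by
      have hd := Univ.digits_computable (fun a => c (Queue.Sym.cell (Univ.sym false a)))
      have : (fun n => (initWord (tape n)).map c) = fun n =>
          (if (((PartrecToTM2.trNat n).map
              (fun a => c (Queue.Sym.cell (Univ.sym false a)))).length + 1) % 2 = 0 then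
            [c (Queue.Sym.mark), c (Queue.Sym.head default (Univ.sym true .cons))]
          else [c (Queue.Sym.mark), c (Queue.Sym.cell default),
            c (Queue.Sym.head default (Univ.sym true .cons))]) ++
          ((PartrecToTM2.trNat n).map
            (fun a => c (Queue.Sym.cell (Univ.sym false a)))).reverse := by
        funext n
        simp only [tape, initWord, List.length_cons, List.length_map, List.length_reverse]
        split_ifs <;> simp [Function.comp_def]
      rw [this]
      have hlen := Computable.list_length.comp hd
      have hmod : Computable (fun n : ℕ => ((((PartrecToTM2.trNat n).map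
              (fun a => c (Queue.Sym.cell (Univ.sym false a)))).length + 1) % 2)) :=
        (Primrec.nat_mod.comp (Primrec.succ.comp Primrec.id) (Primrec.const 2)).to_comp.comp hlen
      have hite : Computable (fun n : ℕ => (if (((PartrecToTM2.trNat n).map
              (fun a => c (Queue.Sym.cell (Univ.sym false a)))).length + 1) % 2 = 0 then
            [c (Queue.Sym.mark), c (Queue.Sym.head default (Univ.sym true .cons))]
          else [c (Queue.Sym.mark), c (Queue.Sym.cell default),
            c (Queue.Sym.head default (Univ.sym true .cons))])) := by
        have hp : Primrec (fun m : ℕ => if m = 0 then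
            [c (Queue.Sym.mark), c (Queue.Sym.head default (Univ.sym true .cons))]
          else [c (Queue.Sym.mark), c (Queue.Sym.cell default),
            c (Queue.Sym.head default (Univ.sym true .cons))]) :=
          Primrec.ite (PrimrecRel.comp Primrec.eq Primrec.id (Primrec.const 0))
            (Primrec.const _) (Primrec.const _)
        exact hp.to_comp.comp hmod
      exact Computable.list_append.comp hite (Computable.list_reverse.comp hd)
    refine hw.of_eq fun n => ?_
    rw [List.map_map]
    rfl
  · intro hcomp
    apply Univ.u_not_computable
    refine (ComputablePred.of_eq hcomp ?_)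
    intro n
    rw [hsol, ← hM n, ← rep_halts M (rep_init (tape n) (by simp [tape]))]
    constructor
    · rintro ⟨s, hs⟩
      have hlen := initWord_length (Γ := TM2to1.Γ' PartrecToTM2.K' (fun _ => PartrecToTM2.Γ'))
        (Λ := Λ) (tape n)
      refine reach_of_sol (prod_length M) s _ ?_ ?_ hs
      · intro h
        rw [h] at hlen
        simp at hlen
      · intro h
        omega
    · exact sol_of_reach

end Pool.Agent.H639R2.FE
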