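import Mathlib
import Pool.Agent.H639R2.FE.Source

/-! The languages of encoded solutions. -/

set_option autoImplicit false

namespace Pool.Agent.H639R2.FE

/-- letters: front letters, the dollar, back letters -/
inductive Lt (F B : Type) : Type
  | fr (a : F)
  | dol
  | bk (b : B)

instance {F B : Type} [Finite F] [Finite B] : Finite (Lt F B) := by
  classical
  refine Finite.of_injective (fun s : Lt F B => match s with
    | .fr a => (Sum.inl (Sum.inl a) : (F ⊕ B) ⊕ Unit)
    | .bk b => Sum.inl (Sum.inr b)
    | .dol => Sum.inr ()) ?_
  intro x y h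
  cases x <;> cases y <;> simp_all

variable {F B : Type}

def KK (f : F → List B) (b0 : List B) : Set (List (Lt F B)) :=
  {w | ∃ s : List F, w = s.map .fr ++ .dol :: ((s.flatMap f ++ b0).reverse.map .bk)}

variable {f : F → List B} {b0 : List B}

theorem KK_nil : [] ∉ KK f b0 := by
  rintro ⟨s, hs⟩
  simp at hs

theorem KK_bk (b : B) (z : List (Lt F B)) : .bk b :: z ∉ KK f b0 := by
  rintro ⟨s, hs⟩
  cases s <;> simp at hs

theorem KK_dol (z : List (Lt F B)) : .dol :: z ∈ KK f b0 ↔ z = b0.reverse.map .bk := by
  constructor
  · rintro ⟨s, hs⟩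
    cases s with
    | nil => simpa using hs
    | cons a s => simp at hs
  · rintro rfl
    exact ⟨[], by simp⟩

theorem KK_fr (a : F) (z : List (Lt F B)) :
    .fr a :: z ∈ KK f b0 ↔ ∃ z' ∈ KK f b0, z = z' ++ (f a).reverse.map .bk := by
  constructor
  · rintro ⟨s, hs⟩
    cases s with
    | nil => simp at hs
    | cons a' s =>
      simp only [List.map_cons, List.cons_append, List.cons.injEq, Lt.fr.injEq] at hs
      obtain ⟨rfl, rfl⟩ := hs
      exact ⟨_, ⟨s, rfl⟩, by simp⟩
  · rintro ⟨z', ⟨s, rfl⟩, rfl⟩
    exact ⟨a :: s, by simp⟩

inductive CG (f : F → List B) (b0 : List B) (M : ℕ) : List (Lt F B) → Prop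
  | short (w : List (Lt F B)) : w ∉ KK f b0 → w ≠ [] → w.length ≤ M → CG f b0 M w
  | wrap (x : Lt F B) (u y : List (Lt F B)) : u ≠ [] → y.length ≤ M →
      (∀ u, u ≠ [] → x :: (u ++ y) ∉ KK f b0) → CG f b0 M (x :: (u ++ y))
  | peel (a : F) (u : List (Lt F B)) : CG f b0 M u →
      CG f b0 M (.fr a :: (u ++ (f a).reverse.map .bk))

theorem CG_sound {M : ℕ} {w : List (Lt F B)} (h : CG f b0 M w) : w ∉ KK f b0 ∧ w ≠ [] := by
  induction h with
  | short w h h' _ => exact ⟨h, h'⟩
  | wrap x u y hu _ h => exact ⟨h u hu, by simp⟩
  | peel a u _ ih =>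
    refine ⟨?_, by simp⟩
    rw [KK_fr]
    rintro ⟨z', hz', h⟩
    have := List.append_cancel_right h
    subst this
    exact ih.1 hz'

theorem CG_complete {M : ℕ} (hM : ∀ a, (f a).length < M) (hb : b0.length < M) :
    ∀ (n : ℕ) (w : List (Lt F B)), w.length = n → w ∉ KK f b0 → w ≠ [] → CG f b0 M w := by
  intro n
  induction n using Nat.strong_induction_on with
  | _ n ih =>
    intro w hn hw hne
    by_cases hs : w.length ≤ M
    · exact CG.short w hw hne hs
    push Not at hs
    match w, hne, hn, hw, hs with
    | x :: w', _, hn, hw, hs =>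
      rw [List.length_cons] at hs hn
      have hsplit : ∀ m, m < M → ∃ u y : List (Lt F B), w' = u ++ y ∧ y.length = m ∧ u ≠ [] := by
        intro m hm
        refine ⟨w'.take (w'.length - m), w'.drop (w'.length - m), (List.take_append_drop _ _).symm,
          ?_, ?_⟩
        · rw [List.length_drop]; omega
        · intro h
          have := congrArg List.length h
          rw [List.length_take] at this
          simp only [List.length_nil] at this
          omega
      cases x with
      | bk b =>
        have := CG.wrap (f := f) (b0 := b0) (M := M) (.bk b) w' [] (by rintro rfl; simp at hs; omega)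
          (by simp) (fun u _ => KK_bk b _)
        simpa using this
      | dol =>
        obtain ⟨u, y, rfl, hy, hu⟩ := hsplit b0.length hb
        refine CG.wrap .dol u y hu (by omega) ?_
        intro u' hu' h
        rw [KK_dol] at h
        have h2 := congrArg List.length h
        simp only [List.length_append, List.length_map, List.length_reverse] at h2
        have : u'.length = 0 := by omega
        exact hu' (List.eq_nil_of_length_eq_zero this)
      | fr a =>
        obtain ⟨u, y, rfl, hy, hu⟩ := hsplit (f a).length (hM a)
        by_cases hya : y = (f a).reverse.map .bk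
        · subst hya
          refine CG.peel a u (ih u.length ?_ u rfl ?_ hu)
          · simp only [List.length_append] at hn; omega
          · intro h
            exact hw ((KK_fr a _).2 ⟨u, h, rfl⟩)
        · refine CG.wrap (.fr a) u y hu (by have := hM a; omega) ?_
          intro u' _ h
          rw [KK_fr] at h
          obtain ⟨z', _, h⟩ := h
          have h2 := congrArg List.length h
          simp only [List.length_append, List.length_map, List.length_reverse] at h2
          obtain ⟨-, h3⟩ := List.append_inj' h (by simp [hy])
          exact hya h3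

theorem map_fr_inj {s s' : List F} {t t' : List (Lt F B)}
    (h : s.map .fr ++ .dol :: t = s'.map .fr ++ .dol :: t') : s = s' ∧ t = t' := by
  induction s generalizing s' with
  | nil =>
    cases s' with
    | nil => simpa using h
    | cons a s' => simp at h
  | cons a s ih =>
    cases s' with
    | nil => simp at h
    | cons a' s' =>
      simp only [List.map_cons, List.cons_append, List.cons.injEq, Lt.fr.injEq] at h
      obtain ⟨h1, h2⟩ := ih h.2
      exact ⟨by rw [h.1, h1], h2⟩

section solve

variable {S : Type} (P : S → S → List S) (z : S)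

def f1 : S ⊕ (S × S) → List S
  | .inl _ => []
  | .inr p => [p.1, p.2]

def f2 : S ⊕ (S × S) → List S
  | .inl a => [a]
  | .inr p => P p.1 p.2

/-- letters allowed after the initial word -/
def Good : Lt (S ⊕ (S × S)) S → Prop
  | .fr (.inl _) => False
  | _ => True

theorem sol_iff (w : List S) : Sol P z w ↔
    ∃ u : List (Lt (S ⊕ (S × S)) S), u ≠ [] ∧ (∀ x ∈ u, Good x) ∧
      (w.map (fun a => Lt.fr (Sum.inl a)) ++ u) ∈ KK f1 [z] ∧
      (w.map (fun a => Lt.fr (Sum.inl a)) ++ u) ∈ KK (f2 P) [] := by
  have e1 : ∀ s : List (S × S), (s.map Sum.inr).flatMap f1 = gg s := by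
    intro s
    induction s with
    | nil => rfl
    | cons p s ih => simp only [List.map_cons, List.flatMap_cons, ih, gg, f1]
  have e2 : ∀ s : List (S × S), (s.map Sum.inr).flatMap (f2 P) = hh P s := by
    intro s
    induction s with
    | nil => rfl
    | cons p s ih => simp only [List.map_cons, List.flatMap_cons, ih, hh, f2]
  have e3 : ∀ w : List S, (w.map Sum.inl).flatMap (f1 (S := S)) = [] := by
    intro w
    induction w with
    | nil => rfl
    | cons p s ih => simp only [List.map_cons, List.flatMap_cons, ih, f1, List.append_nil]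
  have e4 : ∀ w : List S, (w.map Sum.inl).flatMap (f2 P) = w := by
    intro w
    induction w with
    | nil => rfl
    | cons p s ih => simp only [List.map_cons, List.flatMap_cons, ih, f2]; rfl
  constructor
  · rintro ⟨s, hs⟩
    refine ⟨(s.map Sum.inr).map .fr ++ .dol :: ((gg s ++ [z]).reverse.map .bk), by simp, ?_, ?_, ?_⟩
    · intro x hx
      simp only [List.map_map, List.mem_append, List.mem_map, List.mem_cons] at hx
      rcases hx with ⟨p, _, rfl⟩ | rfl | ⟨p, _, rfl⟩ <;> simp [Good]
    · refine ⟨w.map Sum.inl ++ s.map Sum.inr, ?_⟩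
      rw [List.flatMap_append, e1, e3]
      simp
    · refine ⟨w.map Sum.inl ++ s.map Sum.inr, ?_⟩
      rw [List.flatMap_append, e2, e4, hs]
      simp
  · rintro ⟨u, -, hu, ⟨s, hs⟩, ⟨s', hs'⟩⟩
    obtain ⟨rfl, h2⟩ := map_fr_inj (hs.symm.trans hs')
    -- split s
    have key : ∀ (w : List S) (s : List (S ⊕ (S × S))) (t : List (Lt (S ⊕ (S × S)) S)),
        w.map (fun a => Lt.fr (Sum.inl a)) ++ u = s.map .fr ++ .dol :: t →
        ∃ s2 : List (S × S), s = w.map Sum.inl ++ s2.map Sum.inr := by
      intro w
      induction w with
      | nil =>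
        intro s t h
        simp only [List.map_nil, List.nil_append] at h ⊢
        have hall : ∀ x ∈ s, ∃ p, x = Sum.inr p := by
          intro x hx
          have h1 : Lt.fr x ∈ u := by
            rw [h]; exact List.mem_append_left _ (List.mem_map_of_mem hx)
          have h2 := hu _ h1
          cases x with
          | inl a => exact absurd h2 (by simp [Good])
          | inr p => exact ⟨p, rfl⟩
        clear h
        induction s with
        | nil => exact ⟨[], rfl⟩
        | cons x s ih =>
          obtain ⟨p, rfl⟩ := hall x List.mem_cons_self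
          obtain ⟨s2, h2⟩ := ih (fun y hy => hall y (List.mem_cons_of_mem _ hy))
          exact ⟨p :: s2, by rw [h2]; rfl⟩
      | cons a w ih =>
        intro s t h
        cases s with
        | nil => simp at h
        | cons x s =>
          simp only [List.map_cons, List.cons_append, List.cons.injEq, Lt.fr.injEq] at h
          obtain ⟨s2, h2⟩ := ih s t h.2
          exact ⟨s2, by rw [h2, ← h.1]; rfl⟩
    obtain ⟨s2, hs2⟩ := key w s _ hs
    refine ⟨s2, ?_⟩
    have h3 : (s.flatMap f1 ++ [z]).reverse = (s.flatMap (f2 P) ++ []).reverse := by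
      refine List.map_injective_iff.2 (fun a b h => ?_) h2
      simpa using h
    have h4 := List.reverse_injective h3
    rw [hs2, List.flatMap_append, List.flatMap_append, e1, e2, e3, e4] at h4
    simpa using h4

end solve

end Pool.Agent.H639R2.FE
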