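import Pool.Agent.H639R2.FE.Reg
import Pool.Agent.H639R2.FE.Words

/-! The two forms. -/

set_option autoImplicit false

namespace Pool.Agent.H639R2.FE

open Pool.Agent.Helper230

/-- nonterminals -/
inductive NT : Type
  | s | c1 | c2 | u | r

instance : Finite NT := by
  refine Finite.of_injective (fun n : NT => match n with
    | .s => (0 : Fin 5) | .c1 => 1 | .c2 => 2 | .u => 3 | .r => 4) ?_
  intro a b h
  cases a <;> cases b <;> simp_all

/-- codes of the nonterminals -/
def e : NT → ℕ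
  | .s => 0 | .c1 => 1 | .c2 => 2 | .u => 3 | .r => 4

theorem e_inj : Function.Injective e := by
  intro a b h
  cases a <;> cases b <;> simp_all [e]

theorem e_lt (q : NT) : e q < 5 := by cases q <;> simp [e]

section

variable {S : Type} [Finite S] (P : S → S → List S) (z : S)

/-- the letters of the forms, besides the letter `5` -/
abbrev LL (S : Type) : Type := Lt (S ⊕ (S × S)) S

variable (c : LL S → ℕ) (all : List (LL S)) (M : ℕ)

def fS (P : S → S → List S) (i : Bool) : S ⊕ (S × S) → List S := if i then f1 else f2 P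
def bS (z : S) (i : Bool) : List S := if i then [z] else []
def cN (i : Bool) : NT := if i then .c1 else .c2

/-- a word of letters as right side -/
def tw (w : List (LL S)) : List (NT ⊕ ℕ) := w.map (fun x => Sum.inr (c x))

/-- the rules of the second form -/
inductive R2 : NT → List (NT ⊕ ℕ) → Prop
  | start (i : Bool) : R2 .s [Sum.inr 5, Sum.inl (cN i), Sum.inr 5]
  | spec : R2 .s ([Sum.inr 5, Sum.inr 5] ++ tw c all ++ [Sum.inr 5, Sum.inr 5])
  | short (i : Bool) (w : List (LL S)) : w ∉ KK (fS P i) (bS z i) → w ≠ [] → w.length ≤ M →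
      R2 (cN i) (tw c w)
  | wrap (i : Bool) (x : LL S) (y : List (LL S)) : y.length ≤ M →
      (∀ u, u ≠ [] → x :: (u ++ y) ∉ KK (fS P i) (bS z i)) →
      R2 (cN i) (Sum.inr (c x) :: Sum.inl .u :: tw c y)
  | peel (i : Bool) (a : S ⊕ (S × S)) :
      R2 (cN i) (Sum.inr (c (.fr a)) :: Sum.inl (cN i) :: tw c ((fS P i a).reverse.map .bk))
  | u1 (x : LL S) : R2 .u [Sum.inr (c x), Sum.inl .u]
  | u2 (x : LL S) : R2 .u [Sum.inr (c x)]

/-- additional rules of the first form -/
inductive RR : NT → List (NT ⊕ ℕ) → Prop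
  | r1 (x : LL S) : Good x → RR .r [Sum.inr (c x), Sum.inl .r]
  | r2 (x : LL S) : Good x → RR .r [Sum.inr (c x)]

/-- the start rule of the first form -/
def rv (v : List (LL S)) : List (NT ⊕ ℕ) := Sum.inr 5 :: (tw c v ++ [Sum.inl .r, Sum.inr 5])

def RS2 : Set (NT × List (NT ⊕ ℕ)) := {r | R2 P z c all M r.1 r.2}
def RS1 (v : List (LL S)) : Set (NT × List (NT ⊕ ℕ)) :=
  {r | R2 P z c all M r.1 r.2 ∨ RR c r.1 r.2 ∨ r = (.s, rv c v)}

/-- encoding of rules -/
def er (r : NT × List (NT ⊕ ℕ)) : ℕ × List ℕ := (e r.1, r.2.map (Sum.elim e id))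

omit [Finite S] in
theorem mem_tw {w : List (LL S)} {x : NT ⊕ ℕ} (h : x ∈ tw c w) : ∃ y ∈ w, x = Sum.inr (c y) := by
  obtain ⟨y, hy, rfl⟩ := List.mem_map.1 h
  exact ⟨y, hy, rfl⟩

omit [Finite S] in
/-- letters of right sides -/
theorem R2_mem {q : NT} {β : List (NT ⊕ ℕ)} (h : R2 P z c all M q β) :
    β ≠ [] ∧ ∀ x ∈ β, x = Sum.inl .c1 ∨ x = Sum.inl .c2 ∨ x = Sum.inl .u ∨ x = Sum.inr 5 ∨
      ∃ y, x = Sum.inr (c y) := by
  have hc : ∀ i, (Sum.inl (cN i) : NT ⊕ ℕ) = Sum.inl .c1 ∨ (Sum.inl (cN i) : NT ⊕ ℕ) = Sum.inl .c2 := by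
    intro i; cases i <;> simp [cN]
  cases h with
  | start i =>
    refine ⟨by simp, ?_⟩
    intro x hx
    simp only [List.mem_cons, List.not_mem_nil, or_false] at hx
    rcases hx with rfl | rfl | rfl
    · simp
    · rcases hc i with h | h
      · exact Or.inl h
      · exact Or.inr (Or.inl h)
    · simp
  | spec =>
    refine ⟨by simp, ?_⟩
    intro x hx
    simp only [List.mem_append, List.mem_cons, List.not_mem_nil, or_false] at hx
    rcases hx with ((rfl | rfl) | hx) | (rfl | rfl)
    · simp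
    · simp
    · obtain ⟨y, _, rfl⟩ := mem_tw c hx
      exact Or.inr (Or.inr (Or.inr (Or.inr ⟨y, rfl⟩)))
    · simp
    · simp
  | short i w _ hw _ =>
    refine ⟨by simpa [tw] using hw, ?_⟩
    intro x hx
    obtain ⟨y, _, rfl⟩ := mem_tw c hx
    exact Or.inr (Or.inr (Or.inr (Or.inr ⟨y, rfl⟩)))
  | wrap i x y _ _ =>
    refine ⟨by simp, ?_⟩
    intro a ha
    rcases List.mem_cons.1 ha with rfl | ha
    · exact Or.inr (Or.inr (Or.inr (Or.inr ⟨x, rfl⟩)))
    rcases List.mem_cons.1 ha with rfl | ha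
    · simp
    obtain ⟨y, _, rfl⟩ := mem_tw c ha
    exact Or.inr (Or.inr (Or.inr (Or.inr ⟨y, rfl⟩)))
  | peel i a =>
    refine ⟨by simp, ?_⟩
    intro b hb
    rcases List.mem_cons.1 hb with rfl | hb
    · exact Or.inr (Or.inr (Or.inr (Or.inr ⟨_, rfl⟩)))
    rcases List.mem_cons.1 hb with rfl | hb
    · rcases hc i with h | h
      · exact Or.inl h
      · exact Or.inr (Or.inl h)
    obtain ⟨y, _, rfl⟩ := mem_tw c hb
    exact Or.inr (Or.inr (Or.inr (Or.inr ⟨y, rfl⟩)))
  | u1 x =>
    refine ⟨by simp, ?_⟩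
    intro a ha
    simp only [List.mem_cons, List.not_mem_nil, or_false] at ha
    rcases ha with rfl | rfl
    · exact Or.inr (Or.inr (Or.inr (Or.inr ⟨_, rfl⟩)))
    · simp
  | u2 x =>
    refine ⟨by simp, ?_⟩
    intro a ha
    simp only [List.mem_cons, List.not_mem_nil, or_false] at ha
    subst ha
    exact Or.inr (Or.inr (Or.inr (Or.inr ⟨_, rfl⟩)))

theorem RS1_finite (v : List (LL S)) : (RS1 P z c all M v).Finite := by
  classical
  have hfc : Finite (LL S) := inferInstance
  have hE : (Set.range (Sum.inl : NT → NT ⊕ ℕ) ∪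
      ({Sum.inr 5} ∪ Set.range (fun x : LL S => (Sum.inr (c x) : NT ⊕ ℕ)))).Finite :=
    (Set.finite_range _).union ((Set.finite_singleton _).union (Set.finite_range _))
  obtain ⟨N, hN⟩ : ∃ N, ∀ i (a : S ⊕ (S × S)), (fS P i a).length < N := by
    have hfin : (Set.range (fun p : Bool × (S ⊕ (S × S)) => (fS P p.1 p.2).length)).Finite :=
      Set.finite_range _
    obtain ⟨N, hN⟩ := hfin.bddAbove
    refine ⟨N + 1, fun i a => Nat.lt_succ_of_le (hN ⟨(i, a), rfl⟩)⟩
  refine ((Set.finite_univ (α := NT)).prod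
    (finite_words _ hE (N + M + all.length + v.length + 10))).subset ?_
  rintro ⟨q, β⟩ (h | h | h)
  · refine ⟨Set.mem_univ _, ?_, ?_⟩
    · intro x hx
      rcases (R2_mem P z c all M h).2 x hx with rfl | rfl | rfl | rfl | ⟨y, rfl⟩ <;> simp
    · dsimp only at h ⊢
      cases h with
      | start i => simp
      | spec => simp [tw]; omega
      | short i w _ _ hw => simp [tw]; omega
      | wrap i x y hy _ => simp [tw]; omega
      | peel i a =>
        have := hN i a
        simp [tw]; omega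
      | u1 x => simp
      | u2 x => simp
  · refine ⟨Set.mem_univ _, ?_, ?_⟩
    · dsimp only at h
      intro x hx
      cases h with
      | r1 x _ => simp at hx; rcases hx with rfl | rfl <;> simp
      | r2 x _ => simp at hx; rcases hx with rfl; simp
    · dsimp only at h ⊢
      cases h with
      | r1 x _ => simp
      | r2 x _ => simp
  · rw [Prod.mk.injEq] at h
    obtain ⟨rfl, rfl⟩ := h
    refine ⟨Set.mem_univ _, ?_, ?_⟩
    · intro x hx
      simp only [rv, List.mem_cons, List.mem_append, List.not_mem_nil, or_false] at hx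
      rcases hx with rfl | hx | rfl | rfl
      · simp
      · obtain ⟨y, _, rfl⟩ := mem_tw c hx
        simp
      · simp
      · simp
    · simp [rv, tw]; omega

omit [Finite S] in
theorem RS2_subset (v : List (LL S)) : RS2 P z c all M ⊆ RS1 P z c all M v :=
  fun _ h => Or.inl h

theorem RS2_finite : (RS2 P z c all M).Finite :=
  (RS1_finite P z c all M []).subset (RS2_subset P z c all M [])

/-- terminals -/
noncomputable def TT : Finset ℕ := (Set.finite_range c).toFinset ∪ {5}

theorem mem_TT {x : ℕ} : x ∈ TT c ↔ (∃ y, c y = x) ∨ x = 5 := by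
  simp [TT, or_comm]

theorem RS1_mem {v : List (LL S)} {r : NT × List (NT ⊕ ℕ)} (h : r ∈ RS1 P z c all M v) :
    r.2 ≠ [] ∧ ∀ x, Sum.inr x ∈ r.2 → x ∈ TT c := by
  obtain ⟨q, β⟩ := r
  rcases h with h | h | h
  · refine ⟨(R2_mem P z c all M h).1, ?_⟩
    intro x hx
    rw [mem_TT]
    rcases (R2_mem P z c all M h).2 _ hx with h | h | h | h | ⟨y, h⟩
    · simp at h
    · simp at h
    · simp at h
    · right; simpa using h
    · left; exact ⟨y, by simpa using h.symm⟩
  · dsimp only at h ⊢
    cases h with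
    | r1 y _ =>
      refine ⟨by simp, ?_⟩
      intro x hx
      simp at hx
      subst hx
      rw [mem_TT]; exact Or.inl ⟨y, rfl⟩
    | r2 y _ =>
      refine ⟨by simp, ?_⟩
      intro x hx
      simp at hx
      subst hx
      rw [mem_TT]; exact Or.inl ⟨y, rfl⟩
  · rw [Prod.mk.injEq] at h
    obtain ⟨rfl, rfl⟩ := h
    refine ⟨by simp [rv], ?_⟩
    intro x hx
    simp only [rv, List.mem_cons, List.mem_append, List.not_mem_nil, or_false] at hx
    rw [mem_TT]
    rcases hx with h | hx | h | h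
    · right; simpa using h
    · obtain ⟨y, _, h⟩ := mem_tw c hx
      left; exact ⟨y, by simpa using h.symm⟩
    · simp at h
    · right; simpa using h

/-- a grammar from a finite set of rules -/
noncomputable def mkG (hc : ∀ x, 6 ≤ c x) (R : Set (NT × List (NT ⊕ ℕ))) (hR : R.Finite)
    (hR1 : ∀ r ∈ R, r.2 ≠ [] ∧ ∀ x, Sum.inr x ∈ r.2 → x ∈ TT c) : Grammar where
  N := Finset.range 5
  T := TT c
  P := hR.toFinset.image er
  S := 0
  disj := by
    rw [Finset.disjoint_left]
    intro x hx hx'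
    rw [Finset.mem_range] at hx
    rw [mem_TT] at hx'
    rcases hx' with ⟨y, rfl⟩ | rfl
    · have := hc y; omega
    · omega
  start_mem := by simp
  wf := by
    intro p hp
    simp only [Finset.mem_image, Set.Finite.mem_toFinset] at hp
    obtain ⟨r, hr, rfl⟩ := hp
    refine ⟨?_, ?_, ?_⟩
    · simp [er, e_lt]
    · simpa [er] using (hR1 r hr).1
    · intro x hx
      simp only [er, List.mem_map] at hx
      obtain ⟨y, hy, rfl⟩ := hx
      cases y with
      | inl q => left; simp [e_lt]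
      | inr y => right; exact (hR1 r hr).2 y hy

variable (hc : ∀ x, 6 ≤ c x)

noncomputable def G1 (v : List (LL S)) : Grammar :=
  mkG c hc (RS1 P z c all M v) (RS1_finite P z c all M v) (fun _ h => RS1_mem P z c all M h)

noncomputable def G2 : Grammar :=
  mkG c hc (RS2 P z c all M) (RS2_finite P z c all M)
    (fun _ h => RS1_mem P z c all M (RS2_subset P z c all M [] h))

theorem mkG_language (R : Set (NT × List (NT ⊕ ℕ))) (hR : R.Finite)
    (hR1 : ∀ r ∈ R, r.2 ≠ [] ∧ ∀ x, Sum.inr x ∈ r.2 → x ∈ TT c) :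
    (mkG c hc R hR hR1).language = {w | Der (ExR R) [Sum.inl NT.s] w} := by
  refine lang_eq _ e R NT.s rfl ?_ ?_ ?_
  · intro q; simp [mkG, e_lt]
  · intro q β h
    refine ⟨?_, (hR1 _ h).2⟩
    simp only [mkG, Finset.mem_image, Set.Finite.mem_toFinset]
    exact ⟨_, h, rfl⟩
  · intro q γ h
    simp only [mkG, Finset.mem_image, Set.Finite.mem_toFinset, er, Prod.mk.injEq, Prod.exists] at h
    obtain ⟨q', β, h1, h2, h3⟩ := h
    have := e_inj h2
    subst this
    exact ⟨β, h1, h3.symm⟩

end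

end Pool.Agent.H639R2.FE
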