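import Pool.Agent.H639R2.FE.Gram

/-! Languages of the two forms. -/

set_option autoImplicit false

namespace Pool.Agent.H639R2.FE

open Pool.Agent.Helper230

section gen

variable {Q : Type} {Ex : Q → List (Q ⊕ ℕ) → Prop}

theorem DerN_inr_inv {n : ℕ} {a : ℕ} {u : List (Q ⊕ ℕ)} {w : List ℕ}
    (h : DerN Ex n (Sum.inr a :: u) w) : ∃ w', w = a :: w' ∧ DerN Ex n u w' := by
  cases h with
  | ter _ h => exact ⟨_, rfl, h⟩

theorem DerN_nil_inv {n : ℕ} {w : List ℕ} (h : DerN Ex n [] w) : w = [] := by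
  cases h; rfl

theorem DerN_ters_inv {n : ℕ} {v : List ℕ} {u : List (Q ⊕ ℕ)} {w : List ℕ}
    (h : DerN Ex n (v.map Sum.inr ++ u) w) : ∃ w', w = v ++ w' ∧ DerN Ex n u w' := by
  induction v generalizing w with
  | nil => exact ⟨w, rfl, h⟩
  | cons a v ih =>
    obtain ⟨w1, rfl, h1⟩ := DerN_inr_inv h
    obtain ⟨w2, rfl, h2⟩ := ih h1
    exact ⟨w2, rfl, h2⟩

theorem DerN_ters_inv' {n : ℕ} {v : List ℕ} {w : List ℕ}
    (h : DerN Ex n (v.map Sum.inr) w) : w = v := by
  have h' : DerN Ex n (v.map Sum.inr ++ []) w := by simpa using h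
  obtain ⟨w', rfl, h1⟩ := DerN_ters_inv h'
  rw [DerN_nil_inv h1, List.append_nil]

theorem Der_ters_append {v : List ℕ} {u : List (Q ⊕ ℕ)} {w : List ℕ} (h : Der Ex u w) :
    Der Ex (v.map Sum.inr ++ u) (v ++ w) := (Der.of_ters v).append h

end gen

section

variable {S : Type} (P : S → S → List S) (z : S)
variable (c : LL S → ℕ) (all : List (LL S)) (M : ℕ)

theorem tw_eq (w : List (LL S)) : tw c w = (w.map c).map Sum.inr := by
  simp [tw, Function.comp_def]

theorem tw_der {Ex : NT → List (NT ⊕ ℕ) → Prop} (w : List (LL S)) :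
    Der Ex (tw c w) (w.map c) := by
  rw [tw_eq]
  exact Der.of_ters _

variable {v : List (LL S)}

theorem RS1_u {β : List (NT ⊕ ℕ)} (h : (NT.u, β) ∈ RS1 P z c all M v) :
    ∃ x, β = [Sum.inr (c x), Sum.inl .u] ∨ β = [Sum.inr (c x)] := by
  rcases h with h | h | h
  · have key : ∀ q, R2 P z c all M q β → q = .u →
      ∃ x, β = [Sum.inr (c x), Sum.inl .u] ∨ β = [Sum.inr (c x)] := by
      intro q h hq
      cases h with
      | start i => simp at hq
      | spec => simp at hq
      | short i => cases i <;> simp [cN] at hq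
      | wrap i => cases i <;> simp [cN] at hq
      | peel i => cases i <;> simp [cN] at hq
      | u1 x => exact ⟨x, Or.inl rfl⟩
      | u2 x => exact ⟨x, Or.inr rfl⟩
    exact key _ h rfl
  · have key : ∀ q, RR c q β → q = .u → False := by
      intro q h hq
      cases h <;> simp at hq
    exact (key _ h rfl).elim
  · simp at h

theorem RS1_r {β : List (NT ⊕ ℕ)} (h : (NT.r, β) ∈ RS1 P z c all M v) :
    ∃ x, Good x ∧ (β = [Sum.inr (c x), Sum.inl .r] ∨ β = [Sum.inr (c x)]) := by
  rcases h with h | h | h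
  · have key : ∀ q, R2 P z c all M q β → q = .r → False := by
      intro q h hq
      cases h with
      | start i => simp at hq
      | spec => simp at hq
      | short i => cases i <;> simp [cN] at hq
      | wrap i => cases i <;> simp [cN] at hq
      | peel i => cases i <;> simp [cN] at hq
      | u1 x => simp at hq
      | u2 x => simp at hq
    exact (key _ h rfl).elim
  · have key : ∀ q, RR c q β → q = .r →
      ∃ x, Good x ∧ (β = [Sum.inr (c x), Sum.inl .r] ∨ β = [Sum.inr (c x)]) := by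
      intro q h hq
      cases h with
      | r1 x hx => exact ⟨x, hx, Or.inl rfl⟩
      | r2 x hx => exact ⟨x, hx, Or.inr rfl⟩
    exact key _ h rfl
  · simp at h

theorem RS1_c {i : Bool} {β : List (NT ⊕ ℕ)} (h : (cN i, β) ∈ RS1 P z c all M v) :
    (∃ w, w ∉ KK (fS P i) (bS z i) ∧ w ≠ [] ∧ w.length ≤ M ∧ β = tw c w) ∨
    (∃ x y, y.length ≤ M ∧ (∀ u, u ≠ [] → x :: (u ++ y) ∉ KK (fS P i) (bS z i)) ∧
      β = Sum.inr (c x) :: Sum.inl .u :: tw c y) ∨
    (∃ a, β = Sum.inr (c (.fr a)) :: Sum.inl (cN i) :: tw c ((fS P i a).reverse.map .bk)) := by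
  rcases h with h | h | h
  · have hci : ∀ i j, cN i = cN j → i = j := by
      intro i j h; cases i <;> cases j <;> simp [cN] at h ⊢
    have key : ∀ q, R2 P z c all M q β → q = cN i →
      ((∃ w, w ∉ KK (fS P i) (bS z i) ∧ w ≠ [] ∧ w.length ≤ M ∧ β = tw c w) ∨
    (∃ x y, y.length ≤ M ∧ (∀ u, u ≠ [] → x :: (u ++ y) ∉ KK (fS P i) (bS z i)) ∧
      β = Sum.inr (c x) :: Sum.inl .u :: tw c y) ∨
    (∃ a, β = Sum.inr (c (.fr a)) :: Sum.inl (cN i) :: tw c ((fS P i a).reverse.map .bk))) := by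
      intro q h hq
      cases h with
      | start j => exact False.elim (by cases i <;> simp [cN] at hq)
      | spec => exact False.elim (by cases i <;> simp [cN] at hq)
      | short j w h1 h2 h3 =>
        have := hci _ _ hq; subst this
        exact Or.inl ⟨w, h1, h2, h3, rfl⟩
      | wrap j x y h1 h2 =>
        have := hci _ _ hq; subst this
        exact Or.inr (Or.inl ⟨x, y, h1, h2, rfl⟩)
      | peel j a =>
        have := hci _ _ hq; subst this
        exact Or.inr (Or.inr ⟨a, rfl⟩)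
      | u1 x => exact False.elim (by cases i <;> simp [cN] at hq)
      | u2 x => exact False.elim (by cases i <;> simp [cN] at hq)
    exact key _ h rfl
  · have key : ∀ q, RR c q β → q = cN i → False := by
      intro q h hq
      cases h <;> cases i <;> simp [cN] at hq
    exact (key _ h rfl).elim
  · cases i <;> simp [cN] at h

theorem RS2_s {β : List (NT ⊕ ℕ)} (h : R2 P z c all M NT.s β) :
    (∃ i, β = [Sum.inr 5, Sum.inl (cN i), Sum.inr 5]) ∨
      β = [Sum.inr 5, Sum.inr 5] ++ tw c all ++ [Sum.inr 5, Sum.inr 5] := by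
  have key : ∀ q, R2 P z c all M q β → q = .s → (∃ i, β = [Sum.inr 5, Sum.inl (cN i), Sum.inr 5]) ∨
      β = [Sum.inr 5, Sum.inr 5] ++ tw c all ++ [Sum.inr 5, Sum.inr 5] := by
    intro q h hq
    cases h with
    | start i => exact Or.inl ⟨i, rfl⟩
    | spec => exact Or.inr rfl
    | short i => cases i <;> simp [cN] at hq
    | wrap i => cases i <;> simp [cN] at hq
    | peel i => cases i <;> simp [cN] at hq
    | u1 x => simp at hq
    | u2 x => simp at hq
  exact key _ h rfl

theorem sound_u : ∀ (n : ℕ) (w : List ℕ), DerN (ExR (RS1 P z c all M v)) n [Sum.inl NT.u] w →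
    ∃ w0 : List (LL S), w0 ≠ [] ∧ w = w0.map c := by
  intro n
  induction n with
  | zero => intro w h; cases h
  | succ n ih =>
    intro w h
    obtain ⟨m, β, hm, hβ, hd⟩ := h.single_inv
    obtain rfl : m = n := by omega
    obtain ⟨x, rfl | rfl⟩ := RS1_u P z c all M hβ
    · obtain ⟨w', rfl, h1⟩ := DerN_inr_inv hd
      obtain ⟨w0, -, rfl⟩ := ih _ h1
      exact ⟨x :: w0, by simp, rfl⟩
    · obtain ⟨w', rfl, h1⟩ := DerN_inr_inv hd
      rw [DerN_nil_inv h1]
      exact ⟨[x], by simp, rfl⟩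

theorem sound_r : ∀ (n : ℕ) (w : List ℕ), DerN (ExR (RS1 P z c all M v)) n [Sum.inl NT.r] w →
    ∃ w0 : List (LL S), w0 ≠ [] ∧ (∀ x ∈ w0, Good x) ∧ w = w0.map c := by
  intro n
  induction n with
  | zero => intro w h; cases h
  | succ n ih =>
    intro w h
    obtain ⟨m, β, hm, hβ, hd⟩ := h.single_inv
    obtain rfl : m = n := by omega
    obtain ⟨x, hx, rfl | rfl⟩ := RS1_r P z c all M hβ
    · obtain ⟨w', rfl, h1⟩ := DerN_inr_inv hd
      obtain ⟨w0, -, h2, rfl⟩ := ih _ h1
      refine ⟨x :: w0, by simp, ?_, rfl⟩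
      intro y hy
      rcases List.mem_cons.1 hy with rfl | hy
      · exact hx
      · exact h2 y hy
    · obtain ⟨w', rfl, h1⟩ := DerN_inr_inv hd
      rw [DerN_nil_inv h1]
      exact ⟨[x], by simp, by simpa using hx, rfl⟩

theorem sound_c (i : Bool) : ∀ (n : ℕ) (w : List ℕ),
    DerN (ExR (RS1 P z c all M v)) n [Sum.inl (cN i)] w →
    ∃ w0 : List (LL S), CG (fS P i) (bS z i) M w0 ∧ w = w0.map c := by
  intro n
  induction n with
  | zero => intro w h; cases h
  | succ n ih =>
    intro w h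
    obtain ⟨m, β, hm, hβ, hd⟩ := h.single_inv
    obtain rfl : m = n := by omega
    rcases RS1_c P z c all M hβ with ⟨w0, h1, h2, h3, rfl⟩ | ⟨x, y, h1, h2, rfl⟩ | ⟨a, rfl⟩
    · rw [tw_eq] at hd
      rw [DerN_ters_inv' hd]
      exact ⟨w0, CG.short _ h1 h2 h3, rfl⟩
    · obtain ⟨w', rfl, h3⟩ := DerN_inr_inv hd
      obtain ⟨w1, w2, rfl, h4, h5⟩ := h3.cons_split
      obtain ⟨u0, hu0, rfl⟩ := sound_u P z c all M _ _ h4
      rw [tw_eq] at h5
      rw [DerN_ters_inv' h5]
      exact ⟨x :: (u0 ++ y), CG.wrap x u0 y hu0 h1 h2, by simp⟩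
    · obtain ⟨w', rfl, h3⟩ := DerN_inr_inv hd
      obtain ⟨w1, w2, rfl, h4, h5⟩ := h3.cons_split
      obtain ⟨u0, hu0, rfl⟩ := ih _ h4
      rw [tw_eq] at h5
      rw [DerN_ters_inv' h5]
      exact ⟨_, CG.peel a u0 hu0, by simp⟩

theorem complete_u (w0 : List (LL S)) (h : w0 ≠ []) :
    Der (ExR (RS2 P z c all M)) [Sum.inl NT.u] (w0.map c) := by
  induction w0 with
  | nil => exact absurd rfl h
  | cons x w0 ih =>
    cases w0 with
    | nil => exact Der.single (R2.u2 x) (Der.ter _ Der.nil)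
    | cons y w0 => exact Der.single (R2.u1 x) (Der.ter _ (ih (by simp)))

theorem complete_c (i : Bool) (w0 : List (LL S)) (h : CG (fS P i) (bS z i) M w0) :
    Der (ExR (RS2 P z c all M)) [Sum.inl (cN i)] (w0.map c) := by
  induction h with
  | short w h1 h2 h3 =>
    exact Der.single (R2.short i w h1 h2 h3) (tw_der c w)
  | wrap x u y h1 h2 h3 =>
    refine Der.single (R2.wrap i x y h2 h3) ?_
    rw [List.map_cons, List.map_append]
    exact Der.ter _ ((complete_u P z c all M u h1).append (u := [Sum.inl NT.u]) (tw_der c y))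
  | peel a u _ ih =>
    refine Der.single (R2.peel i a) ?_
    rw [List.map_cons, List.map_append]
    exact Der.ter _ (ih.append (u := [Sum.inl (cN i)]) (tw_der c _))

/-- the special word -/
def spec : List ℕ := [5, 5] ++ all.map c ++ [5, 5]

variable [Finite S] (hc : ∀ x, 6 ≤ c x)

theorem G2_sound {w : List ℕ} (h : w ∈ (G2 P z c all M hc).language) :
    w = spec c all ∨ ∃ (i : Bool) (w0 : List (LL S)), w0 ∉ KK (fS P i) (bS z i) ∧
      w = 5 :: (w0.map c ++ [5]) := by
  rw [G2, mkG_language] at h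
  obtain ⟨n, h⟩ := h
  obtain ⟨m, β, rfl, hβ, hd⟩ := h.single_inv
  rcases RS2_s P z c all M hβ with ⟨i, rfl⟩ | rfl
  · right
    obtain ⟨w', rfl, h3⟩ := DerN_inr_inv hd
    obtain ⟨w1, w2, rfl, h4, h5⟩ := h3.cons_split
    obtain ⟨w'', rfl, h6⟩ := DerN_inr_inv h5
    rw [DerN_nil_inv h6]
    have h7 : DerN (ExR (RS1 P z c all M [])) m [Sum.inl (cN i)] w1 := by
      have := DerN_map (R1 := RS2 P z c all M) (R2 := RS1 P z c all M []) id
        (fun q β h => by simpa using RS2_subset P z c all M [] h) h4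
      simpa using this
    obtain ⟨w0, h8, rfl⟩ := sound_c P z c all M i _ _ h7
    exact ⟨i, w0, (CG_sound h8).1, rfl⟩
  · left
    have : [Sum.inr 5, Sum.inr 5] ++ tw c all ++ [Sum.inr 5, Sum.inr 5] =
        (spec c all).map (Sum.inr : ℕ → NT ⊕ ℕ) := by
      rw [tw_eq]; simp [spec]
    rw [this] at hd
    exact DerN_ters_inv' hd

omit [Finite S] in
theorem spec_mem : Der (ExR (RS2 P z c all M)) [Sum.inl NT.s] (spec c all) := by
  refine Der.single R2.spec ?_
  have : [Sum.inr 5, Sum.inr 5] ++ tw c all ++ [Sum.inr 5, Sum.inr 5] =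
      (spec c all).map (Sum.inr : ℕ → NT ⊕ ℕ) := by
    rw [tw_eq]; simp [spec]
  rw [this]
  exact Der.of_ters _

theorem G2_complete (hM : ∀ i a, (fS P i a).length < M) (hM1 : 1 < M) {i : Bool}
    {w0 : List (LL S)} (h : w0 ≠ []) (h1 : w0 ∉ KK (fS P i) (bS z i)) :
    5 :: (w0.map c ++ [5]) ∈ (G2 P z c all M hc).language := by
  rw [G2, mkG_language]
  refine Der.single (R2.start i) ?_
  refine Der.ter _ (Der.append (u := [Sum.inl (cN i)]) (complete_c P z c all M i w0 ?_)
    (Der.ter _ Der.nil))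
  refine CG_complete (hM i) ?_ _ _ rfl h1 h
  cases i <;> simp [bS] <;> omega

end

end Pool.Agent.H639R2.FE
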