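import Pool.Agent.H639R2.FE.Fam

/-! Regular languages whose types are contained in the language of the form. -/

namespace Pool.Agent.H639R2.FE

open Pool.Agent.Helper230

/-- the rules of a grammar, nonterminals being a subtype -/
def R0 (G : Grammar) : Set ({x // x ∈ G.N} × List ({x // x ∈ G.N} ⊕ ℕ)) :=
  {r | (r.1.1, r.2.map (Sum.elim Subtype.val id)) ∈ G.P ∧ ∀ x, Sum.inr x ∈ r.2 → x ∈ G.T}

theorem language_eq (G : Grammar) :
    G.language = {w | Der (ExR (R0 G)) [Sum.inl ⟨G.S, G.start_mem⟩] w} := by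
  refine lang_eq G Subtype.val (R0 G) _ rfl (fun q => q.2) (fun q β h => h) ?_
  intro q γ hγ
  have hwf := (G.wf _ hγ).2.2
  let lf : ℕ → {x // x ∈ G.N} ⊕ ℕ := fun x => if h : x ∈ G.N then Sum.inl ⟨x, h⟩ else Sum.inr x
  have h1 : (γ.map lf).map (Sum.elim Subtype.val id) = γ := by
    rw [List.map_map]
    conv_rhs => rw [← List.map_id γ]
    apply List.map_congr_left
    intro x _
    simp only [Function.comp_apply, lf]
    split_ifs <;> rfl
  refine ⟨γ.map lf, ⟨?_, ?_⟩, h1.symm⟩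
  · dsimp only
    rw [h1]; exact hγ
  · intro x hx
    obtain ⟨y, hy, hxy⟩ := List.mem_map.1 hx
    simp only [lf] at hxy
    split_ifs at hxy with h
    have : y = x := by simpa using hxy
    subst this
    rcases hwf y hy with h2 | h2
    · exact absurd h2 h
    · exact h2

theorem gen_base (G : Grammar) (τ : ℕ → ℕ) {Z : Type}
    [Finite Z] (δ : Z → ℕ → ℕ → Z → Prop) (D' : Finset ℕ) (z0 : Z) (Fi : Set Z)
    (hT : ∀ x ∈ D', τ x ∈ G.T)
    (hδ : ∀ z x x' z', δ z x x' z' → x' ∈ D' ∧ (x = τ x')) :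
    Gen G.dat τ {w' | ∃ w ∈ G.language, ∃ z ∈ Fi, Run δ z0 w w' z} := by
  let Q := {x // x ∈ G.N}
  let R := R0 G
  let s : Q := ⟨G.S, G.start_mem⟩
  let ν : Q → ℕ := Subtype.val
  let ν' : Option (Z × Q × Z) → ℕ := fun o => o.elim G.S (fun p => ν p.2.1)
  have hdec : ∀ z β β' z', Dec δ z β β' z' →
      β'.map (Sum.elim ν' τ) = β.map (Sum.elim ν id) ∧ ∀ x, Sum.inr x ∈ β' → x ∈ D' := by
    intro z β β' z' h
    induction h with
    | nil z => exact ⟨rfl, by simp⟩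
    | nt _ ih =>
      refine ⟨?_, ?_⟩
      · rw [List.map_cons, List.map_cons, ih.1]; rfl
      · intro x hx
        rcases List.mem_cons.1 hx with hx | hx
        · simp at hx
        · exact ih.2 x hx
    | ter hx _ ih =>
      refine ⟨?_, ?_⟩
      · rw [List.map_cons, List.map_cons, ih.1, Sum.elim_inr, Sum.elim_inr, (hδ _ _ _ _ hx).2]; rfl
      · intro x h
        rcases List.mem_cons.1 h with h | h
        · simp only [Sum.inr.injEq] at h
          subst h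
          exact (hδ _ _ _ _ hx).1
        · exact ih.2 x h
  rw [language_eq]
  refine ⟨Option (Z × Q × Z), inferInstance, ν', none, RT R s δ z0 Fi, D', rfl, ?_, hT, ?_, ?_, ?_⟩
  · rintro (_ | ⟨z, q, z'⟩)
    · exact G.start_mem
    · exact q.2
  · rintro ⟨q, β'⟩ (⟨z, q0, z', β, h1, h2, h3⟩ | ⟨z', _, β, h1, h2, h3⟩)
    · dsimp only at h1 h3 ⊢
      subst h1
      rw [(hdec _ _ _ _ h3).1]
      exact h2.1
    · dsimp only at h1 h3 ⊢
      subst h1
      rw [(hdec _ _ _ _ h3).1]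
      exact h2.1
  · rintro ⟨q, β'⟩ (⟨z, q0, z', β, h1, h2, h3⟩ | ⟨z', _, β, h1, h2, h3⟩) x hx
    · exact (hdec _ _ _ _ h3).2 x hx
    · exact (hdec _ _ _ _ h3).2 x hx
  · ext w'
    constructor
    · rintro ⟨w, ⟨n, hw⟩, z, hz, hr⟩
      obtain ⟨m, β, rfl, hβ, hd⟩ := hw.single_inv
      obtain ⟨β', h1, h2⟩ := dec_complete (s := s) (z0 := z0) (Fi := Fi) hd z0 w' z hr
      exact Der.single (Or.inr ⟨z, hz, β, rfl, hβ, h1⟩) ⟨m, h2⟩
    · rintro ⟨n, hw⟩
      obtain ⟨m, β', rfl, hβ, hd⟩ := hw.single_inv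
      rcases hβ with ⟨z, q0, z', β, h1, h2, h3⟩ | ⟨z', hz', β, h1, h2, h3⟩
      · simp at h1
      · obtain ⟨w, h4, h5⟩ := dec_sound hd _ _ _ h3
        exact ⟨w, Der.single h2 ⟨m, h4⟩, z', hz', h5⟩

/-- runs of a finite automaton -/
inductive NRun {Z : Type} (tr : Z → ℕ → Z → Prop) : Z → List ℕ → Z → Prop
  | nil (z : Z) : NRun tr z [] z
  | cons {z z' z'' : Z} {x : ℕ} {w : List ℕ} : tr z x z' → NRun tr z' w z'' → NRun tr z (x :: w) z''

theorem run_iff {Z : Type} {tr : Z → ℕ → Z → Prop} {D : Finset ℕ} {τ : ℕ → ℕ} {z z' : Z}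
    {w w' : List ℕ} :
    Run (fun z x x' z' => x' ∈ D ∧ x = τ x' ∧ tr z x' z') z w w' z' ↔
      w = w'.map τ ∧ (∀ x ∈ w', x ∈ D) ∧ NRun tr z w' z' := by
  constructor
  · intro h
    induction h with
    | nil z => exact ⟨rfl, by simp, NRun.nil z⟩
    | cons h _ ih =>
      obtain ⟨h1, rfl, h2⟩ := h
      obtain ⟨rfl, h3, h4⟩ := ih
      refine ⟨rfl, ?_, NRun.cons h2 h4⟩
      intro y hy
      rcases List.mem_cons.1 hy with rfl | hy
      · exact h1
      · exact h3 y hy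
  · rintro ⟨rfl, h1, h2⟩
    induction h2 with
    | nil z => exact Run.nil z
    | cons h _ ih =>
      exact Run.cons ⟨h1 _ List.mem_cons_self, rfl, h⟩
        (ih (fun y hy => h1 y (List.mem_cons_of_mem _ hy)))

theorem gen_reg (G : Grammar) (τ : ℕ → ℕ) {Z : Type} [Finite Z] (tr : Z → ℕ → Z → Prop)
    (D : Finset ℕ) (z0 z1 : Z) (hT : ∀ x ∈ D, τ x ∈ G.T)
    (hD : ∀ w, NRun tr z0 w z1 → ∀ x ∈ w, x ∈ D)
    (hL : ∀ w, NRun tr z0 w z1 → w.map τ ∈ G.language) :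
    Gen G.dat τ {w | NRun tr z0 w z1} := by
  have h := gen_base G τ (fun z x x' z' => x' ∈ D ∧ x = τ x' ∧ tr z x' z') D z0 {z1} hT
    (fun z x x' z' h => ⟨h.1, h.2.1⟩)
  convert h using 1
  ext w'
  simp only [Set.mem_ofPred_eq]
  constructor
  · intro hw
    exact ⟨_, hL _ hw, z1, rfl, run_iff.2 ⟨rfl, hD _ hw, hw⟩⟩
  · rintro ⟨w, _, z, rfl, hr⟩
    exact (run_iff.1 hr).2.2

end Pool.Agent.H639R2.FE
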